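import Mathlib

/-!
# Homomorphisms of finitely generated commutative rings to fields
-/

set_option autoImplicit false

namespace Pool.Agent.U943.PR

open Polynomial

/-- `ℤ` is a Jacobson ring -/
instance jacobsonInt : IsJacobsonRing ℤ := by
  rw [isJacobsonRing_iff_prime_eq]
  intro P hP
  by_cases h0 : P = ⊥
  · subst h0
    rw [eq_bot_iff]
    intro x hx
    rw [Ideal.mem_bot]
    by_contra hne
    obtain ⟨p, hp1, hp2⟩ := Nat.exists_infinite_primes (x.natAbs + 1)
    have hpp : Prime (p : ℤ) := Nat.prime_iff_prime_int.1 hp2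
    have hmax : (Ideal.span {(p : ℤ)}).IsMaximal :=
      PrincipalIdealRing.isMaximal_of_irreducible hpp.irreducible
    have h1 : x ∈ Ideal.span {(p : ℤ)} := Ideal.mem_sInf.1 hx ⟨bot_le, hmax⟩
    rw [Ideal.mem_span_singleton] at h1
    have h2 := Int.natAbs_dvd_natAbs.2 h1
    rw [Int.natAbs_natCast] at h2
    have := Nat.le_of_dvd (Int.natAbs_pos.2 hne) h2
    omega
  · have : P.IsMaximal := hP.isMaximal h0
    exact Ideal.jacobson_eq_self_of_isMaximal

lemma not_isIntegral_half {K : Type*} [Field K] [CharZero K] : ¬ IsIntegral ℤ ((2 : K)⁻¹) := by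
  intro h
  have h1 : IsIntegral ℤ ((2 : ℚ)⁻¹) := by
    have h2 : (algebraMap ℚ K) ((2 : ℚ)⁻¹) = (2 : K)⁻¹ := by simp
    rw [← h2] at h
    exact (isIntegral_algebraMap_iff (algebraMap ℚ K).injective).1 h
  obtain ⟨z, hz⟩ := IsIntegrallyClosed.isIntegral_iff.1 h1
  have h3 : (z : ℚ) = (2 : ℚ)⁻¹ := hz
  have h4 : (2 * z : ℚ) = 1 := by rw [h3]; norm_num
  have h5 : (2 * z : ℤ) = 1 := by exact_mod_cast h4
  omega

/-- a field which is finitely generated as a ring is finite -/
lemma finite_field {K : Type*} [Field K] [Algebra.FiniteType ℤ K] : Finite K := by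
  have hfin : Module.Finite ℤ K := finite_of_finite_type_of_isJacobsonRing ℤ K
  obtain ⟨p, hp⟩ := CharP.exists K
  rcases CharP.char_is_prime_or_zero K p with h | h
  · have : Fact p.Prime := ⟨h⟩
    let _ : Algebra (ZMod p) K := ZMod.algebra K p
    have h1 : Module.Finite (ZMod p) K := Module.Finite.of_restrictScalars_finite ℤ (ZMod p) K
    exact Module.finite_of_finite (ZMod p)
  · subst h
    have : CharZero K := CharP.charP_to_charZero K
    exact absurd (Algebra.IsIntegral.isIntegral (R := ℤ) ((2 : K)⁻¹)) not_isIntegral_half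

/-- an abbreviation -/
abbrev QQ := AlgebraicClosure ℚ

/-- The Nullstellensatz for finitely generated rings, in characteristic zero. -/
theorem exists_hom {B : Type*} [CommRing B] [Algebra.FiniteType ℤ B] (b : B)
    (hb : ∀ N k : ℕ, 0 < N → (N : B) * b ^ k ≠ 0) : ∃ α : B →+* QQ, α b ≠ 0 := by
  classical
  let S : Submonoid B :=
    { carrier := {x | ∃ N k : ℕ, 0 < N ∧ x = (N : B) * b ^ k}
      one_mem' := ⟨1, 0, one_pos, by simp⟩
      mul_mem' := by
        rintro _ _ ⟨N, k, hN, rfl⟩ ⟨N', k', hN', rfl⟩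
        exact ⟨N * N', k + k', Nat.mul_pos hN hN', by push_cast; ring⟩ }
  have h0 : (0 : B) ∉ S := by
    rintro ⟨N, k, hN, h⟩
    exact hb N k hN h.symm
  have hnt : Nontrivial (Localization S) := by
    rw [← not_subsingleton_iff_nontrivial, IsLocalization.subsingleton_iff (M := S)]
    exact h0
  obtain ⟨M, hM⟩ := Ideal.exists_maximal (Localization S)
  let L := Localization S ⧸ M
  let _ : Field L := Ideal.Quotient.field M
  let g : B →+* L := (Ideal.Quotient.mk M).comp (algebraMap B (Localization S))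
  have hgu : ∀ s ∈ S, g s ≠ 0 := by
    intro s hs
    have h1 : IsUnit (algebraMap B (Localization S) s) :=
      IsLocalization.map_units (Localization S) ⟨s, hs⟩
    exact (h1.map (Ideal.Quotient.mk M)).ne_zero
  have hchar : CharZero L := by
    apply charZero_of_inj_zero
    intro n hn
    by_contra hne
    apply hgu (n : B) ⟨n, 0, Nat.pos_of_ne_zero hne, by simp⟩
    rw [map_natCast]
    exact hn
  have hgb : g b ≠ 0 := hgu b ⟨1, 1, one_pos, by simp⟩
  have hft : Algebra.FiniteType ℚ L := by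
    obtain ⟨s, hs⟩ := (inferInstance : Algebra.FiniteType ℤ B).out
    refine ⟨⟨s.image g ∪ {(g b)⁻¹}, ?_⟩⟩
    rw [eq_top_iff]
    have hg : ∀ x : B, g x ∈ Algebra.adjoin ℚ ((s.image g ∪ {(g b)⁻¹} : Finset L) : Set L) := by
      intro x
      have hx : x ∈ Algebra.adjoin ℤ (s : Set B) := by rw [hs]; trivial
      induction hx using Algebra.adjoin_induction with
      | mem x hx =>
        apply Algebra.subset_adjoin
        rw [Finset.mem_coe, Finset.mem_union]
        exact Or.inl (Finset.mem_image_of_mem g hx)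
      | algebraMap r =>
        rw [eq_intCast, map_intCast, ← Rat.cast_intCast r]
        exact Subalgebra.algebraMap_mem _ (r : ℚ)
      | add x y _ _ hx hy => rw [map_add]; exact add_mem hx hy
      | mul x y _ _ hx hy => rw [map_mul]; exact mul_mem hx hy
    rintro y -
    obtain ⟨c, rfl⟩ := Ideal.Quotient.mk_surjective y
    obtain ⟨⟨x, ⟨s', N, k, hN, rfl⟩⟩, hc⟩ := IsLocalization.surj S c
    have h1 : Ideal.Quotient.mk M c * ((N : L) * (g b) ^ k) = g x := by
      have h2 := congrArg (Ideal.Quotient.mk M) hc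
      rw [map_mul] at h2
      have h3 : (Ideal.Quotient.mk M) ((algebraMap B (Localization S)) ((N : B) * b ^ k)) =
          (N : L) * (g b) ^ k := by
        have : g ((N : B) * b ^ k) = (N : L) * (g b) ^ k := by
          rw [map_mul, map_natCast, map_pow]
        exact this
      rw [← h3]
      exact h2
    have hN0 : (N : L) ≠ 0 := by exact_mod_cast hN.ne'
    have h4 : Ideal.Quotient.mk M c = g x * ((algebraMap ℚ L ((N : ℚ)⁻¹)) * ((g b)⁻¹) ^ k) := by
      rw [map_inv₀, map_natCast, ← h1, inv_pow]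
      have h5 : (g b) ^ k ≠ 0 := pow_ne_zero _ hgb
      rw [mul_mul_mul_comm, ← mul_assoc, mul_assoc ((Ideal.Quotient.mk M) c)]
      field_simp
    rw [h4]
    refine mul_mem (hg x) (mul_mem (Subalgebra.algebraMap_mem _ _) (pow_mem ?_ k))
    apply Algebra.subset_adjoin
    rw [Finset.mem_coe, Finset.mem_union]
    exact Or.inr (Finset.mem_singleton_self _)
  have hfin : Module.Finite ℚ L := finite_of_finite_type_of_isJacobsonRing ℚ L
  have halg : Algebra.IsAlgebraic ℚ L := inferInstance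
  let φ : L →ₐ[ℚ] QQ := IsAlgClosed.lift
  exact ⟨φ.toRingHom.comp g, fun h => hgb (φ.toRingHom.injective (by rw [map_zero]; exact h))⟩

instance algQQ : Algebra.IsAlgebraic ℚ QQ := AlgebraicClosure.isAlgebraic ℚ

lemma exists_mult (a : QQ) : ∃ N : ℕ, 0 < N ∧ IsIntegral ℤ ((N : QQ) * a) := by
  obtain ⟨z, hz0, hz⟩ : ∃ z : ℤ, z ≠ 0 ∧ IsIntegral ℤ ((z : QQ) * a) := by
    have h1 : IsAlgebraic ℤ a := by
      have h2 : IsAlgebraic ℚ a := Algebra.IsAlgebraic.isAlgebraic a
      exact (IsFractionRing.isAlgebraic_iff ℤ ℚ QQ).2 h2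
    obtain ⟨z, hz0, hz⟩ := h1.exists_integral_multiple
    refine ⟨z, hz0, ?_⟩
    rwa [← zsmul_eq_mul]
  refine ⟨z.natAbs, Int.natAbs_pos.2 hz0, ?_⟩
  rcases Int.natAbs_eq z with h | h
  · have h4 : ((z.natAbs : ℕ) : QQ) * a = (z : QQ) * a := by
      have h5 : ((z.natAbs : ℤ) : QQ) = (z : QQ) := congrArg _ h.symm
      rw [← h5, Int.cast_natCast]
    rwa [h4]
  · have h4 : ((z.natAbs : ℕ) : QQ) * a = -((z : QQ) * a) := by
      have h5 : ((z.natAbs : ℤ) : QQ) = ((-z : ℤ) : QQ) := congrArg _ (by omega)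
      rw [Int.cast_natCast, Int.cast_neg] at h5
      rw [h5]; ring
    rw [h4]
    exact hz.neg

/-- Reduction of finitely generated subrings of `QQ` modulo large primes. -/
theorem exists_red (X : Finset QQ) : ∃ L : ℕ, ∀ (ℓ : ℕ) [Fact ℓ.Prime], L < ℓ →
    Nonempty (Algebra.adjoin ℤ (X : Set QQ) →+* AlgebraicClosure (ZMod ℓ)) := by
  classical
  obtain ⟨N, hN0, hN⟩ : ∃ N : ℕ, 0 < N ∧ ∀ x ∈ X, IsIntegral ℤ ((N : QQ) * x) := by
    induction X using Finset.induction_on with
    | empty => exact ⟨1, one_pos, fun x hx => absurd hx (Finset.notMem_empty x)⟩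
    | insert a s _ ih =>
      obtain ⟨N, hN0, hN⟩ := ih
      obtain ⟨z, hz0, hz⟩ := exists_mult a
      refine ⟨N * z, Nat.mul_pos hN0 hz0, ?_⟩
      intro x hx
      rcases Finset.mem_insert.1 hx with rfl | hx
      · have h5 : ((N * z : ℕ) : QQ) * x = (N : QQ) * ((z : QQ) * x) := by
          push_cast; ring
        rw [h5]
        exact (isIntegral_natCast N).mul hz
      · have h5 : ((N * z : ℕ) : QQ) * x = (z : QQ) * ((N : QQ) * x) := by
          push_cast; ring
        rw [h5]
        exact (isIntegral_natCast z).mul (hN x hx)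
  have hN' : ∀ y ∈ Algebra.adjoin ℤ (X : Set QQ), ∃ k : ℕ, IsIntegral ℤ ((N : QQ) ^ k * y) := by
    intro y hy
    induction hy using Algebra.adjoin_induction with
    | mem x hx => exact ⟨1, by rw [pow_one]; exact hN x hx⟩
    | algebraMap r => exact ⟨0, by rw [pow_zero, one_mul]; exact isIntegral_algebraMap⟩
    | add x y _ _ hx hy =>
      obtain ⟨k, hk⟩ := hx
      obtain ⟨l, hl⟩ := hy
      refine ⟨k + l, ?_⟩
      have h5 : (N : QQ) ^ (k + l) * (x + y) = (N : QQ) ^ l * ((N : QQ) ^ k * x) +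
        (N : QQ) ^ k * ((N : QQ) ^ l * y) := by ring
      rw [h5]
      exact (((isIntegral_natCast N).pow l).mul hk).add (((isIntegral_natCast N).pow k).mul hl)
    | mul x y _ _ hx hy =>
      obtain ⟨k, hk⟩ := hx
      obtain ⟨l, hl⟩ := hy
      refine ⟨k + l, ?_⟩
      have h5 : (N : QQ) ^ (k + l) * (x * y) = ((N : QQ) ^ k * x) * ((N : QQ) ^ l * y) := by ring
      rw [h5]
      exact hk.mul hl
  refine ⟨N, fun ℓ hℓ hNℓ => ?_⟩
  let B := Algebra.adjoin ℤ (X : Set QQ)
  have hft : Algebra.FiniteType ℤ B := by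
    rw [← Subalgebra.fg_iff_finiteType]
    exact ⟨X, rfl⟩
  have hnu : ¬ IsUnit ((ℓ : ℕ) : B) := by
    intro h
    obtain ⟨y, hy⟩ := h.exists_right_inv
    obtain ⟨k, hk⟩ := hN' y.1 y.2
    have h1 : ((ℓ : ℕ) : QQ) * y.1 = 1 := congrArg Subtype.val hy
    have hℓ0 : ((ℓ : ℕ) : QQ) ≠ 0 := by exact_mod_cast hℓ.out.ne_zero
    have h2 : (algebraMap ℚ QQ) ((N : ℚ) ^ k / ℓ) = (N : QQ) ^ k * y.1 := by
      rw [map_div₀, map_pow, map_natCast, map_natCast]
      have h3 : y.1 = ((ℓ : ℕ) : QQ)⁻¹ := eq_inv_of_mul_eq_one_right h1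
      rw [h3]
      rfl
    rw [← h2] at hk
    have h3 : IsIntegral ℤ ((N : ℚ) ^ k / ℓ) :=
      (isIntegral_algebraMap_iff (algebraMap ℚ QQ).injective).1 hk
    obtain ⟨z, hz⟩ := IsIntegrallyClosed.isIntegral_iff.1 h3
    have h4 : (z : ℚ) = (N : ℚ) ^ k / ℓ := hz
    have hℓ0' : ((ℓ : ℕ) : ℚ) ≠ 0 := by exact_mod_cast hℓ.out.ne_zero
    rw [eq_div_iff hℓ0'] at h4
    have h5 : z * ℓ = (N : ℤ) ^ k := by exact_mod_cast h4
    have h6 : (ℓ : ℤ) ∣ (N : ℤ) ^ k := Dvd.intro_left z h5
    have h7 : ℓ ∣ N := hℓ.out.dvd_of_dvd_pow (by exact_mod_cast h6)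
    have := Nat.le_of_dvd hN0 h7
    omega
  obtain ⟨M, hM, hM2⟩ := Ideal.exists_le_maximal (Ideal.span {((ℓ : ℕ) : B)}) (by
    rw [Ne, Ideal.span_singleton_eq_top]
    exact hnu)
  let K := B ⧸ M
  let _ : Field K := Ideal.Quotient.field M
  have hft' : @Algebra.FiniteType ℤ B _ _ (Ring.toIntAlgebra B) := by
    have e : Ring.toIntAlgebra B = B.algebra := Subsingleton.elim _ _
    rw [e]
    exact hft
  have hftK : @Algebra.FiniteType ℤ K _ _ (Ring.toIntAlgebra K) :=
    Algebra.FiniteType.of_surjective (Ideal.Quotient.mk M).toIntAlgHom Ideal.Quotient.mk_surjective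
  have hfin : Finite K := finite_field
  have hK : CharP K ℓ := by
    have h1 : ((ℓ : ℕ) : K) = 0 := by
      have h2 : Ideal.Quotient.mk M ((ℓ : ℕ) : B) = 0 :=
        Ideal.Quotient.eq_zero_iff_mem.2 (hM2 (Ideal.subset_span rfl))
      rwa [map_natCast] at h2
    obtain ⟨p, hp⟩ := CharP.exists K
    have h2 := (CharP.cast_eq_zero_iff K p ℓ).1 h1
    have h3 : p ≠ 1 := CharP.char_ne_one K p
    rcases (Nat.dvd_prime hℓ.out).1 h2 with h4 | h4
    · exact absurd h4 h3
    · rwa [← h4]
  let _ : Algebra (ZMod ℓ) K := ZMod.algebra K ℓ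
  let φ : K →ₐ[ZMod ℓ] AlgebraicClosure (ZMod ℓ) := IsAlgClosed.lift
  exact ⟨φ.toRingHom.comp (Ideal.Quotient.mk M)⟩

/-- If a finitely generated ring has at most one homomorphism to the algebraic closure of `ZMod ℓ`
for all large primes `ℓ`, then it has at most one homomorphism to `QQ`. -/
theorem unique_hom {R : Type*} [CommRing R] [Algebra.FiniteType ℤ R]
    (hU : ∃ L : ℕ, ∀ (ℓ : ℕ) [Fact ℓ.Prime], L < ℓ →
      ∀ a b : R →+* AlgebraicClosure (ZMod ℓ), a = b) (α β : R →+* QQ) : α = β := by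
  classical
  by_contra hne
  obtain ⟨r, hr⟩ : ∃ r, α r ≠ β r := by
    by_contra hcon
    push Not at hcon
    exact hne (RingHom.ext hcon)
  obtain ⟨s, hs⟩ := (inferInstance : Algebra.FiniteType ℤ R).out
  let X : Finset QQ := s.image α ∪ s.image β ∪ {(α r - β r)⁻¹}
  obtain ⟨L, hL⟩ := exists_red X
  obtain ⟨L', hL'⟩ := hU
  obtain ⟨ℓ, hℓ1, hℓ2⟩ := Nat.exists_infinite_primes (L + L' + 1)
  have : Fact ℓ.Prime := ⟨hℓ2⟩
  obtain ⟨h⟩ := hL ℓ (by omega)
  have hmem : ∀ γ : R →+* QQ, (∀ x ∈ s, γ x ∈ X) → ∀ x, γ x ∈ Algebra.adjoin ℤ (X : Set QQ) := by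
    intro γ hγ x
    have hx : x ∈ Algebra.adjoin ℤ (s : Set R) := by rw [hs]; trivial
    induction hx using Algebra.adjoin_induction with
    | mem x hx => exact Algebra.subset_adjoin (hγ x hx)
    | algebraMap r =>
      rw [eq_intCast, map_intCast]
      exact Subalgebra.intCast_mem _ r
    | add x y _ _ hx hy => rw [map_add]; exact add_mem hx hy
    | mul x y _ _ hx hy => rw [map_mul]; exact mul_mem hx hy
  have h1 : ∀ x ∈ s, α x ∈ X := fun x hx =>
    Finset.mem_union_left _ (Finset.mem_union_left _ (Finset.mem_image_of_mem _ hx))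
  have h2 : ∀ x ∈ s, β x ∈ X := fun x hx =>
    Finset.mem_union_left _ (Finset.mem_union_right _ (Finset.mem_image_of_mem _ hx))
  let B := Algebra.adjoin ℤ (X : Set QQ)
  let α' : R →+* B := α.codRestrict B (hmem α h1)
  let β' : R →+* B := β.codRestrict B (hmem β h2)
  have h3 := hL' ℓ (by omega) (h.comp α') (h.comp β')
  have h4 : h (α' r - β' r) = 0 := by
    rw [map_sub]
    exact sub_eq_zero.2 (congrArg (fun f : R →+* AlgebraicClosure (ZMod ℓ) => f r) h3)
  let u : B := ⟨(α r - β r)⁻¹, Algebra.subset_adjoin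
    (Finset.mem_union_right _ (Finset.mem_singleton_self _))⟩
  have h5 : (α' r - β' r) * u = 1 := by
    apply Subtype.ext
    exact mul_inv_cancel₀ (sub_ne_zero.2 hr)
  have h6 := congrArg h h5
  rw [map_mul, h4, zero_mul, map_one] at h6
  exact zero_ne_one h6

instance nQQ : Normal ℚ QQ := normal_iff.2 fun x =>
  ⟨(Algebra.IsAlgebraic.isAlgebraic x).isIntegral, IsAlgClosed.splits _⟩

instance gQQ : IsGalois ℚ QQ := ⟨⟩

/-- A unique homomorphism to `QQ` has rational values. -/
theorem rational_values {R : Type*} [CommRing R] (α : R →+* QQ) (hu : ∀ β : R →+* QQ, β = α) :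
    ∃ α₀ : R →+* ℚ, ∀ r, algebraMap ℚ QQ (α₀ r) = α r := by
  have h1 : ∀ r, ∃ q : ℚ, algebraMap ℚ QQ q = α r := by
    intro r
    have h1 : α r ∈ (⊥ : IntermediateField ℚ QQ) := by
      rw [InfiniteGalois.mem_bot_iff_fixed]
      intro σ
      have h2 := hu (σ.toRingEquiv.toRingHom.comp α)
      exact congrArg (fun f : R →+* QQ => f r) h2
    rw [IntermediateField.mem_bot] at h1
    exact h1
  choose q hq using h1
  have hinj := (algebraMap ℚ QQ).injective
  refine ⟨{ toFun := q, map_one' := ?_, map_mul' := ?_, map_zero' := ?_, map_add' := ?_ }, hq⟩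
  · apply hinj; rw [hq, map_one, map_one]
  · intro x y; apply hinj; rw [map_mul, hq, hq, hq, map_mul]
  · apply hinj; rw [hq, map_zero, map_zero]
  · intro x y; apply hinj; rw [map_add, hq, hq, hq, map_add]

/-- A noetherian ring is finite if the quotients by its prime ideals are finite. -/
lemma finite_of_primes' {A : Type*} [CommRing A] [IsNoetherianRing A]
    (h : ∀ P : Ideal A, P.IsPrime → Finite (A ⧸ P)) (N : Type*) [AddCommGroup N] [Module A N]
    [Module.Finite A N] : Finite N := by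
  induction ‹Module.Finite A N› using
    IsNoetherianRing.induction_on_isQuotientEquivQuotientPrime A with
  | subsingleton N => exact inferInstance
  | quotient N p e =>
    have := h p.1 p.2
    exact Finite.of_injective e e.injective
  | exact N₁ N₂ N₃ f g hf hg hfg h1 h3 =>
    rw [← Set.finite_univ_iff, ← Set.preimage_univ (f := g)]
    refine Set.Finite.preimage' Set.finite_univ fun b _ => ?_
    obtain ⟨x, rfl⟩ := hg b
    refine (Set.finite_range (fun n : N₁ => x + f n)).subset ?_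
    intro y hy
    have h2 : g (y - x) = 0 := by
      rw [map_sub]
      exact sub_eq_zero.2 hy
    obtain ⟨n, hn⟩ := (hfg _).1 h2
    exact ⟨n, by show x + f n = y; rw [hn]; abel⟩

lemma finite_of_primes {A : Type*} [CommRing A] [IsNoetherianRing A]
    (h : ∀ P : Ideal A, P.IsPrime → Finite (A ⧸ P)) : Finite A :=
  finite_of_primes' h A

/-- Large residue fields. -/
lemma exists_large {D : Type*} [CommRing D] [IsDomain D] [Infinite D] [Algebra.FiniteType ℤ D]
    (c : ℕ) : ∃ M : Ideal D, M.IsMaximal ∧ c < Nat.card (D ⧸ M) := by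
  classical
  let T : D[X] := X * ∏ i ∈ Finset.Icc 1 c, (X ^ i - 1)
  have hT : T ≠ 0 := by
    refine mul_ne_zero X_ne_zero (Finset.prod_ne_zero_iff.2 fun i hi => ?_)
    have := X_pow_sub_C_ne_zero (Finset.mem_Icc.1 hi).1 (1 : D)
    rwa [C_1] at this
  obtain ⟨t, ht⟩ : ∃ t : D, T.eval t ≠ 0 := by
    by_contra hcon
    push Not at hcon
    exact hT (Polynomial.funext fun r => by rw [hcon r, eval_zero])
  have hJ : IsJacobsonRing D := isJacobsonRing_of_finiteType (A := ℤ)
  have h1 : T.eval t ∉ (⊥ : Ideal D).jacobson := by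
    rw [hJ.out (Ideal.isPrime_bot (α := D)).isRadical]
    exact ht
  obtain ⟨M, hM, htM⟩ : ∃ M : Ideal D, M.IsMaximal ∧ T.eval t ∉ M := by
    by_contra hcon
    push Not at hcon
    exact h1 (Ideal.mem_sInf.2 fun {J} hJ => hcon J hJ.2)
  refine ⟨M, hM, ?_⟩
  by_contra hle
  push Not at hle
  apply htM
  let _ : Field (D ⧸ M) := Ideal.Quotient.field M
  have hft : @Algebra.FiniteType ℤ (D ⧸ M) _ _ (Ring.toIntAlgebra _) := by
    have h2 : @Algebra.FiniteType ℤ D _ _ (Ring.toIntAlgebra D) := by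
      convert ‹Algebra.FiniteType ℤ D›
    exact Algebra.FiniteType.of_surjective (Ideal.Quotient.mk M).toIntAlgHom
      Ideal.Quotient.mk_surjective
  have hfin : Finite (D ⧸ M) := finite_field
  have := Fintype.ofFinite (D ⧸ M)
  rw [← Ideal.Quotient.eq_zero_iff_mem]
  show Ideal.Quotient.mk M (eval t (X * ∏ i ∈ Finset.Icc 1 c, (X ^ i - 1))) = 0
  rw [eval_mul, eval_X, eval_prod, map_mul, map_prod]
  by_cases ht0 : Ideal.Quotient.mk M t = 0
  · rw [ht0, zero_mul]
  · rw [Finset.prod_eq_zero (i := Fintype.card (D ⧸ M) - 1), mul_zero]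
    · rw [Nat.card_eq_fintype_card] at hle
      have : 1 < Fintype.card (D ⧸ M) := Fintype.one_lt_card
      exact Finset.mem_Icc.2 ⟨by omega, by omega⟩
    · rw [eval_sub, eval_pow, eval_X, eval_one, map_sub, map_pow, map_one,
        FiniteField.pow_card_sub_one_eq_one _ ht0, sub_self]

/-- The structure of the rings in question. -/
theorem structure1 {R : Type*} [CommRing R] [Algebra.FiniteType ℤ R] [Infinite R]
    (hU : ∃ L : ℕ, ∀ (ℓ : ℕ) [Fact ℓ.Prime], L < ℓ →
      ∀ a b : R →+* AlgebraicClosure (ZMod ℓ), a = b)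
    (hF : ∀ (P : Ideal R) (p : ℕ), P.IsPrime → p.Prime → (p : R) ∈ P → Finite (R ⧸ P)) :
    ∃ (α : R →+* ℚ) (s : R) (w : ℕ), α s ≠ 0 ∧ (∀ x ∈ (RingHom.ker α) ^ w, s * x = 0) ∧
      Finite ((RingHom.ker α) ^ w : Ideal R) := by
  classical
  have hnoeth : IsNoetherianRing R := Algebra.FiniteType.isNoetherianRing ℤ R
  have hpN : ∀ (P : Ideal R), P.IsPrime → ∀ N : ℕ, 0 < N → (N : R) ∈ P → Finite (R ⧸ P) := by
    intro P hP N
    induction N using Nat.strong_induction_on with
    | _ N ih =>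
    intro hN0 hN
    by_cases h1 : N = 1
    · subst h1
      rw [Nat.cast_one] at hN
      exact absurd ((Ideal.eq_top_iff_one P).2 hN) hP.ne_top
    · obtain ⟨p, hp, k, rfl⟩ := Nat.exists_prime_and_dvd h1
      rw [Nat.cast_mul] at hN
      have hk0 : 0 < k := by
        rcases Nat.eq_zero_or_pos k with h | h
        · subst h; simp at hN0
        · exact h
      rcases hP.mem_or_mem hN with h | h
      · exact hF P p hP hp h
      · exact ih k (lt_mul_of_one_lt_left hk0 hp.one_lt) hk0 h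
  have hchar : ∀ N : ℕ, 0 < N → (N : R) ≠ 0 := by
    intro N hN h
    have hfin : Finite R := finite_of_primes fun P hP => hpN P hP N hN (by rw [h]; exact P.zero_mem)
    exact not_finite R
  obtain ⟨α₁, hα₁⟩ := exists_hom (1 : R) (fun N k hN => by
    rw [one_pow, mul_one]; exact hchar N hN)
  have huni : ∀ β : R →+* QQ, β = α₁ := fun β => unique_hom hU β α₁
  obtain ⟨α, hα⟩ := rational_values α₁ huni
  have hker : ∀ r, α₁ r = 0 ↔ α r = 0 := by
    intro r
    rw [← hα r]
    exact map_eq_zero_iff _ (algebraMap ℚ QQ).injective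
  have hP0 : (RingHom.ker α).IsPrime := RingHom.ker_isPrime α
  -- primes different from the kernel have finite quotients
  have hother : ∀ P : Ideal R, P.IsPrime → P ≠ RingHom.ker α → Finite (R ⧸ P) := by
    intro P hP hne
    by_contra hinf
    have hno : ∀ N : ℕ, 0 < N → (N : R) ∉ P := fun N hN h => hinf (hpN P hP N hN h)
    apply hne
    have hft : @Algebra.FiniteType ℤ (R ⧸ P) _ _ (Ring.toIntAlgebra _) := by
      have h2 : @Algebra.FiniteType ℤ R _ _ (Ring.toIntAlgebra R) := by
        convert ‹Algebra.FiniteType ℤ R›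
      exact Algebra.FiniteType.of_surjective (Ideal.Quotient.mk P).toIntAlgHom
        Ideal.Quotient.mk_surjective
    have hge : ∀ d : R, d ∉ P → α d ≠ 0 := by
      intro d hd
      obtain ⟨γ, hγ⟩ := exists_hom (Ideal.Quotient.mk P d) (fun N k hN h => by
        have h1 : Ideal.Quotient.mk P ((N : R) * d ^ k) = 0 := by
          rw [map_mul, map_natCast, map_pow]; exact h
        rw [Ideal.Quotient.eq_zero_iff_mem] at h1
        rcases hP.mem_or_mem h1 with h2 | h2
        · exact hno N hN h2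
        · exact hd (hP.mem_of_pow_mem k h2))
      have h1 := huni (γ.comp (Ideal.Quotient.mk P))
      intro h2
      apply hγ
      have h3 : (γ.comp (Ideal.Quotient.mk P)) d = α₁ d := by rw [h1]
      have h4 : γ (Ideal.Quotient.mk P d) = α₁ d := h3
      rw [h4]
      exact (hker d).2 h2
    have hle : ∀ d : R, d ∈ P → α d = 0 := by
      intro d hd
      obtain ⟨γ, hγ⟩ := exists_hom (1 : R ⧸ P) (fun N k hN h => by
        rw [one_pow, mul_one] at h
        have h1 : Ideal.Quotient.mk P ((N : R)) = 0 := by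
          rw [map_natCast]; exact h
        rw [Ideal.Quotient.eq_zero_iff_mem] at h1
        exact hno N hN h1)
      have h1 := huni (γ.comp (Ideal.Quotient.mk P))
      have h3 : (γ.comp (Ideal.Quotient.mk P)) d = α₁ d := by rw [h1]
      have h4 : γ (Ideal.Quotient.mk P d) = α₁ d := h3
      rw [Ideal.Quotient.eq_zero_iff_mem.2 hd, map_zero] at h4
      exact (hker d).1 h4.symm
    ext d
    rw [RingHom.mem_ker]
    exact ⟨hle d, fun h => by
      by_contra hd
      exact hge d hd h⟩
  -- the other minimal primes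
  have hfm : (minimalPrimes R).Finite := minimalPrimes.finite_of_isNoetherianRing R
  let T : Finset (Ideal R) := hfm.toFinset.filter (fun P => P ≠ RingHom.ker α)
  obtain ⟨s, hs, hs0⟩ : ∃ s, s ∈ T.inf id ∧ s ∉ RingHom.ker α := by
    by_contra hcon
    push Not at hcon
    have h1 : T.inf id ≤ RingHom.ker α := hcon
    rw [hP0.inf_le'] at h1
    obtain ⟨P, hPT, hP⟩ := h1
    rw [Finset.mem_filter, Set.Finite.mem_toFinset] at hPT
    have hPp : P.IsPrime := hPT.1.1.1
    have hfin := hother P hPp hPT.2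
    have h2 : ((Nat.card (R ⧸ P) : ℕ) : R) ∈ P := by
      rw [← Ideal.Quotient.eq_zero_iff_mem, map_natCast]
      have h3 : Nat.card (R ⧸ P) • (1 : R ⧸ P) = 0 := card_nsmul_eq_zero'
      rwa [nsmul_eq_mul, mul_one] at h3
    have h3 := hP h2
    rw [RingHom.mem_ker, map_natCast] at h3
    have h4 : 0 < Nat.card (R ⧸ P) := Nat.card_pos
    have h5 : Nat.card (R ⧸ P) = 0 := by exact_mod_cast h3
    omega
  have hsP : Ideal.span {s} * RingHom.ker α ≤ nilradical R := by
    rw [Ideal.span_singleton_mul_le_iff]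
    intro z hz
    have h1 : nilradical R = sInf (minimalPrimes R) := by
      unfold nilradical
      exact (Ideal.sInf_minimalPrimes (I := (⊥ : Ideal R))).symm
    rw [h1, Ideal.mem_sInf]
    intro P hP
    by_cases hPk : P = RingHom.ker α
    · subst hPk
      exact Ideal.mul_mem_left _ _ hz
    · apply Ideal.mul_mem_right
      have h2 : T.inf id ≤ P := Finset.inf_le (f := id) (Finset.mem_filter.2
        ⟨(Set.Finite.mem_toFinset hfm).2 hP, hPk⟩)
      exact h2 hs
  obtain ⟨w, hw⟩ := IsNoetherianRing.isNilpotent_nilradical R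
  have hkill : ∀ x ∈ (RingHom.ker α) ^ w, s ^ w * x = 0 := by
    intro x hx
    have h1 : s ^ w * x ∈ (Ideal.span {s} * RingHom.ker α) ^ w := by
      rw [mul_pow, Ideal.span_singleton_pow]
      exact Ideal.mul_mem_mul (Ideal.mem_span_singleton_self _) hx
    have h2 := Ideal.pow_right_mono hsP w h1
    rw [hw] at h2
    exact h2
  have hsw : α (s ^ w) ≠ 0 := by
    rw [map_pow]
    exact pow_ne_zero _ hs0
  refine ⟨α, s ^ w, w, hsw, hkill, ?_⟩
  let I : Ideal R := Ideal.span {s ^ w}
  have hRI : Finite (R ⧸ I) := by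
    apply finite_of_primes
    intro Q hQ
    have h1 : (Q.comap (Ideal.Quotient.mk I)).IsPrime := inferInstance
    have h2 : Finite (R ⧸ Q.comap (Ideal.Quotient.mk I)) := by
      apply hother _ h1
      intro h3
      apply hsw
      have h4 : s ^ w ∈ Q.comap (Ideal.Quotient.mk I) := by
        rw [Ideal.mem_comap, Ideal.Quotient.eq_zero_iff_mem.2 (Ideal.mem_span_singleton_self _)]
        exact Q.zero_mem
      rw [h3] at h4
      exact h4
    refine Finite.of_surjective (Ideal.Quotient.lift (Q.comap (Ideal.Quotient.mk I))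
      ((Ideal.Quotient.mk Q).comp (Ideal.Quotient.mk I)) ?_) ?_
    · intro a ha
      exact Ideal.Quotient.eq_zero_iff_mem.2 ha
    · apply Ideal.Quotient.lift_surjective_of_surjective
      exact Ideal.Quotient.mk_surjective.comp Ideal.Quotient.mk_surjective
  let N : Ideal R := (RingHom.ker α) ^ w
  have hNfg : (⊤ : Submodule R N).FG := Module.Finite.fg_top
  have h1 : Finite (N ⧸ (⊤ : Submodule R N)) := inferInstance
  have h2 : Finite (N ⧸ (I • (⊤ : Submodule R N))) := Submodule.finite_quotient_smul I hNfg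
  have h3 : I • (⊤ : Submodule R N) = ⊥ := by
    rw [eq_bot_iff, Submodule.smul_le]
    intro r hr n _
    obtain ⟨c, rfl⟩ := Ideal.mem_span_singleton'.1 hr
    rw [Submodule.mem_bot]
    apply Subtype.ext
    show (c * s ^ w) * (n : R) = 0
    rw [mul_assoc, hkill n.1 n.2, mul_zero]
  rw [h3] at h2
  exact Finite.of_injective _ (Submodule.quotEquivOfEqBot (⊥ : Submodule R N) rfl).symm.injective

end Pool.Agent.U943.PR
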