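import Pool.Agent.U943.PR.Euclid

/-!
# Subrings of `ℚ`
-/

set_option autoImplicit false

namespace Pool.Agent.U943.PR

open Matrix

lemma inv_den_mem (D : Subring ℚ) (x : D) : ((x.1.den : ℚ))⁻¹ ∈ D := by
  have hcop : IsCoprime (x.1.num) (x.1.den : ℤ) := by
    rw [Int.isCoprime_iff_gcd_eq_one, Int.gcd, Int.natAbs_natCast]
    exact x.1.reduced
  obtain ⟨u, v, huv⟩ := hcop
  have hden : (x.1.den : ℚ) ≠ 0 := by exact_mod_cast x.1.den_ne_zero
  have h1 : ((x.1.den : ℚ))⁻¹ = u * x.1 + v := by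
    have h2 : (u : ℚ) * x.1.num + v * x.1.den = 1 := by exact_mod_cast huv
    have h3 : x.1 = x.1.num / x.1.den := (Rat.num_div_den x.1).symm
    field_simp
    have h4 : x.1 * x.1.den = x.1.num := Rat.mul_den_eq_num x.1
    calc (1 : ℚ) = u * x.1.num + v * x.1.den := h2.symm
      _ = u * (x.1 * x.1.den) + v * x.1.den := by rw [h4]
      _ = _ := by ring
  rw [h1]
  exact add_mem (mul_mem (intCast_mem D u) x.2) (intCast_mem D v)

lemma exists_unit_mul (D : Subring ℚ) (x : D) : ∃ (k : ℕ) (u v : D), u * v = 1 ∧ x = u * k := by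
  have hden : (x.1.den : ℚ) ≠ 0 := by exact_mod_cast x.1.den_ne_zero
  let b : D := ⟨((x.1.den : ℚ))⁻¹, inv_den_mem D x⟩
  have hb : b * (x.1.den : D) = 1 := by
    apply Subtype.ext
    exact inv_mul_cancel₀ hden
  have hx : x = b * (x.1.num : D) := by
    apply Subtype.ext
    show x.1 = ((x.1.den : ℚ))⁻¹ * ((x.1.num : D) : ℚ)
    have h4 : x.1 * x.1.den = x.1.num := Rat.mul_den_eq_num x.1
    have h5 : (((x.1.num : ℤ) : D) : ℚ) = (x.1.num : ℚ) := by push_cast; rfl
    rw [h5, ← h4]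
    field_simp
  rcases Int.natAbs_eq x.1.num with h | h
  · refine ⟨x.1.num.natAbs, b, (x.1.den : D), hb, ?_⟩
    conv_lhs => rw [hx, h]
    rw [Int.cast_natCast]
  · refine ⟨x.1.num.natAbs, -b, -(x.1.den : D), by rw [neg_mul_neg, hb], ?_⟩
    conv_lhs => rw [hx, h]
    rw [Int.cast_neg, Int.cast_natCast]
    ring

/-- Generation by elementary matrices over the subrings of `ℚ`. -/
theorem Elm_subring (ι : Type*) [DecidableEq ι] [Fintype ι] (D : Subring ℚ) : Elm ι D = ⊤ := by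
  classical
  refine Elm_eq_top (fun x : D => sInf {k : ℕ | ∃ u v : D, u * v = 1 ∧ x = u * k}) ?_
  intro x y hy
  have hne : {k : ℕ | ∃ u v : D, u * v = 1 ∧ y = u * k}.Nonempty := exists_unit_mul D y
  obtain ⟨u, v, huv, hyu⟩ := Nat.sInf_mem hne
  set k := sInf {k : ℕ | ∃ u v : D, u * v = 1 ∧ y = u * k} with hk
  have hk0 : 0 < k := by
    rcases Nat.eq_zero_or_pos k with h | h
    · exfalso
      apply hy
      rw [hyu, h, Nat.cast_zero, mul_zero]
    · exact h
  obtain ⟨l, u', v', huv', hxu⟩ := exists_unit_mul D x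
  refine ⟨u' * (l / k : ℕ) * v, ?_⟩
  refine lt_of_le_of_lt (Nat.sInf_le ⟨u', v', huv', ?_⟩) (Nat.mod_lt l hk0)
  have h1 : (l : D) = (k : D) * (l / k : ℕ) + (l % k : ℕ) := by
    exact_mod_cast congrArg (Nat.cast : ℕ → D) (Nat.div_add_mod l k).symm
  calc x - u' * (l / k : ℕ) * v * y = u' * l - u' * (l / k : ℕ) * (u * v) * k := by
        rw [hxu]; nth_rewrite 1 [hyu]; ring
    _ = u' * (l % k : ℕ) := by
        rw [huv, h1]; ring

end Pool.Agent.U943.PR
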