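import Mathlib

/-!
# The special linear group over a euclidean ring is generated by the elementary matrices
-/

set_option autoImplicit false

namespace Pool.Agent.U943.PR

open Matrix

section

variable {ι D : Type*} [DecidableEq ι] [Fintype ι] [CommRing D]

/-- the elementary subgroup -/
def Elm (ι D : Type*) [DecidableEq ι] [Fintype ι] [CommRing D] :
    Subgroup (SpecialLinearGroup ι D) :=
  Subgroup.closure {x | ∃ (i j : ι) (h : i ≠ j) (c : D), x = SpecialLinearGroup.transvection h c}

lemma trans_mem_Elm {i j : ι} (h : i ≠ j) (c : D) :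
    (Matrix.SpecialLinearGroup.transvection h c : SpecialLinearGroup ι D) ∈ Elm ι D :=
  Subgroup.subset_closure ⟨i, j, h, c, rfl⟩

lemma trans_mulVec {i j : ι} (h : i ≠ j) (c : D) (v : ι → D) (k : ι) :
    ((Matrix.SpecialLinearGroup.transvection h c : SpecialLinearGroup ι D).1 *ᵥ v) k =
      v k + if k = i then c * v j else 0 := by
  rw [Matrix.SpecialLinearGroup.transvection_coe, add_mulVec, one_mulVec, single_mulVec]
  show v k + Function.update (0 : ι → D) i (c * v j) k = _
  by_cases hk : k = i
  · subst hk; simp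
  · simp [hk]

/-- Reduction of a unimodular vector. -/
lemma reduce (μ : D → ℕ) (hμ : ∀ x y : D, y ≠ 0 → ∃ q, μ (x - q * y) < μ y) (S : Finset ι) (m j₀ : ι)
    (hm : m ∈ S) (hj₀ : j₀ ∈ S) (hmj : j₀ ≠ m) : ∀ (N : ℕ) (v : ι → D), (∑ k ∈ S, μ (v k) = N) →
    (∀ k, k ∉ S → v k = 0) → (∃ r : ι → D, ∑ k, r k * v k = 1) →
    ∃ g ∈ Elm ι D, g.1 *ᵥ v = Pi.single m 1 ∧
      (∀ (w : ι → D) (k : ι), k ∉ S → (g.1 *ᵥ w) k = w k) ∧
      (∀ w : ι → D, (∀ k ∈ S, w k = 0) → g.1 *ᵥ w = w) := by
  intro N
  induction N using Nat.strong_induction_on with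
  | _ N ih =>
  intro v hN hv hr
  -- the properties for one transvection
  have hfix1 : ∀ (i j : ι) (h : i ≠ j) (c : D), i ∈ S → ∀ (w : ι → D) (k : ι), k ∉ S →
      ((Matrix.SpecialLinearGroup.transvection h c : SpecialLinearGroup ι D).1 *ᵥ w) k = w k := by
    intro i j h c hi w k hk
    rw [trans_mulVec, if_neg (fun h' : k = i => hk (h'.symm ▸ hi)), add_zero]
  have hfix2 : ∀ (i j : ι) (h : i ≠ j) (c : D), j ∈ S → ∀ w : ι → D, (∀ k ∈ S, w k = 0) →
      (Matrix.SpecialLinearGroup.transvection h c : SpecialLinearGroup ι D).1 *ᵥ w = w := by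
    intro i j h c hj w hw
    ext k
    rw [trans_mulVec, hw j hj, mul_zero]
    simp
  have hcomp : ∀ g g' : SpecialLinearGroup ι D, ∀ w : ι → D, (g * g').1 *ᵥ w = g.1 *ᵥ (g'.1 *ᵥ w) := by
    intro g g' w
    rw [mulVec_mulVec]
    rfl
  by_cases hex : ∃ i j, i ∈ S ∧ j ∈ S ∧ i ≠ j ∧ v i ≠ 0 ∧ v j ≠ 0
  · obtain ⟨i, j, hi, hj, hij, hi0, hj0, hle⟩ : ∃ i j, i ∈ S ∧ j ∈ S ∧ i ≠ j ∧ v i ≠ 0 ∧ v j ≠ 0 ∧
        μ (v j) ≤ μ (v i) := by
      obtain ⟨i, j, h1, h2, h3, h4, h5⟩ := hex
      rcases le_total (μ (v j)) (μ (v i)) with h | h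
      · exact ⟨i, j, h1, h2, h3, h4, h5, h⟩
      · exact ⟨j, i, h2, h1, h3.symm, h5, h4, h⟩
    obtain ⟨q, hq⟩ := hμ (v i) (v j) hj0
    let t : SpecialLinearGroup ι D := Matrix.SpecialLinearGroup.transvection hij (-q)
    have ht : ∀ k, (t.1 *ᵥ v) k = v k + if k = i then (-q) * v j else 0 := trans_mulVec hij (-q) v
    obtain ⟨g, hg, hg1, hg2, hg3⟩ := ih (∑ k ∈ S, μ ((t.1 *ᵥ v) k)) (by
      rw [← hN]
      apply Finset.sum_lt_sum
      · intro k _
        rw [ht]
        by_cases hk : k = i
        · subst hk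
          rw [if_pos rfl]
          have : v k + -q * v j = v k - q * v j := by ring
          rw [this]
          omega
        · rw [if_neg hk, add_zero]
      · refine ⟨i, hi, ?_⟩
        rw [ht, if_pos rfl]
        have : v i + -q * v j = v i - q * v j := by ring
        rw [this]
        omega) (t.1 *ᵥ v) rfl (by
      intro k hk
      rw [hfix1 i j hij (-q) hi v k hk, hv k hk]) (by
      obtain ⟨r, hr⟩ := hr
      refine ⟨r ᵥ* t⁻¹.1, ?_⟩
      show (r ᵥ* t⁻¹.1) ⬝ᵥ (t.1 *ᵥ v) = 1
      rw [← dotProduct_mulVec, mulVec_mulVec]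
      have : t⁻¹.1 * t.1 = 1 := congrArg Subtype.val (inv_mul_cancel t)
      rw [this, one_mulVec]
      exact hr)
    refine ⟨g * t, mul_mem hg (trans_mem_Elm _ _), ?_, ?_, ?_⟩
    · rw [hcomp, hg1]
    · intro w k hk
      rw [hcomp, hg2 _ k hk, hfix1 i j hij (-q) hi w k hk]
    · intro w hw
      rw [hcomp, hfix2 i j hij (-q) hj w hw, hg3 w hw]
  · push Not at hex
    obtain ⟨r, hr⟩ := hr
    by_cases hm0 : v m = 0
    · -- the nonzero entry is at `p ≠ m`
      obtain ⟨p, hp, hp0⟩ : ∃ p ∈ S, ∀ s, s ≠ p → v s = 0 := by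
        by_cases h1 : ∃ p ∈ S, v p ≠ 0
        · obtain ⟨p, hp, hp0⟩ := h1
          refine ⟨p, hp, fun s hs => ?_⟩
          by_cases hsS : s ∈ S
          · exact hex p s hp hsS (Ne.symm hs) hp0
          · exact hv s hsS
        · push Not at h1
          refine ⟨j₀, hj₀, fun s _ => ?_⟩
          by_cases hsS : s ∈ S
          · exact h1 s hsS
          · exact hv s hsS
      have hu : r p * v p = 1 := by
        rw [← hr]
        exact (Finset.sum_eq_single_of_mem (f := fun k => r k * v k) p (Finset.mem_univ _)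
          (fun b _ hb => by show r b * v b = 0; rw [hp0 b hb, mul_zero])).symm
      by_cases hpm : p = m
      · -- then `v = 0` and the ring is trivial
        subst hpm
        rw [hm0, mul_zero] at hu
        have hs : Subsingleton D := subsingleton_of_zero_eq_one hu
        exact ⟨1, one_mem _, Subsingleton.elim _ _, fun _ _ _ => Subsingleton.elim _ _,
          fun _ _ => Subsingleton.elim _ _⟩
      · let t1 : SpecialLinearGroup ι D :=
          Matrix.SpecialLinearGroup.transvection (Ne.symm hpm) (r p)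
        let t2 : SpecialLinearGroup ι D := Matrix.SpecialLinearGroup.transvection hpm (-(v p))
        refine ⟨t2 * t1, mul_mem (trans_mem_Elm _ _) (trans_mem_Elm _ _), ?_, ?_, ?_⟩
        · rw [hcomp]
          ext k
          rw [trans_mulVec, trans_mulVec, trans_mulVec, if_pos rfl, hm0, hu]
          by_cases hkp : k = p
          · subst hkp
            rw [if_neg hpm, if_pos rfl, Pi.single_eq_of_ne hpm]
            ring
          · by_cases hkm : k = m
            · subst hkm
              rw [if_pos rfl, if_neg hkp, hm0, Pi.single_eq_same]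
              ring
            · rw [if_neg hkm, if_neg hkp, hp0 k hkp, Pi.single_eq_of_ne hkm]
              ring
        · intro w k hk
          rw [hcomp, hfix1 _ _ hpm _ hp _ k hk, hfix1 _ _ (Ne.symm hpm) _ hm _ k hk]
        · intro w hw
          rw [hcomp, hfix2 _ _ (Ne.symm hpm) _ hp w hw, hfix2 _ _ hpm _ hm w hw]
    · have hp0 : ∀ s, s ≠ m → v s = 0 := by
        intro s hs
        by_cases hsS : s ∈ S
        · exact hex m s hm hsS (Ne.symm hs) hm0
        · exact hv s hsS
      have hu : r m * v m = 1 := by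
        rw [← hr]
        exact (Finset.sum_eq_single_of_mem (f := fun k => r k * v k) m (Finset.mem_univ _)
          (fun b _ hb => by show r b * v b = 0; rw [hp0 b hb, mul_zero])).symm
      let t1 : SpecialLinearGroup ι D := Matrix.SpecialLinearGroup.transvection hmj (r m)
      let t2 : SpecialLinearGroup ι D :=
        Matrix.SpecialLinearGroup.transvection (Ne.symm hmj) (1 - v m)
      let t3 : SpecialLinearGroup ι D := Matrix.SpecialLinearGroup.transvection hmj (-1)
      refine ⟨t3 * (t2 * t1), mul_mem (trans_mem_Elm _ _)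
        (mul_mem (trans_mem_Elm _ _) (trans_mem_Elm _ _)), ?_, ?_, ?_⟩
      · rw [hcomp, hcomp]
        have e1 : ∀ k, (t1.1 *ᵥ v) k = v k + if k = j₀ then r m * v m else 0 :=
          trans_mulVec hmj (r m) v
        have e2 : ∀ k, (t2.1 *ᵥ (t1.1 *ᵥ v)) k = (t1.1 *ᵥ v) k +
            if k = m then (1 - v m) * (t1.1 *ᵥ v) j₀ else 0 :=
          trans_mulVec (Ne.symm hmj) (1 - v m) (t1.1 *ᵥ v)
        have e3 : ∀ k, (t3.1 *ᵥ (t2.1 *ᵥ (t1.1 *ᵥ v))) k = (t2.1 *ᵥ (t1.1 *ᵥ v)) k +
            if k = j₀ then (-1) * (t2.1 *ᵥ (t1.1 *ᵥ v)) m else 0 :=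
          trans_mulVec hmj (-1) (t2.1 *ᵥ (t1.1 *ᵥ v))
        have h1 : (t1.1 *ᵥ v) j₀ = 1 := by rw [e1, if_pos rfl, hu, hp0 j₀ hmj, zero_add]
        have h2 : (t2.1 *ᵥ (t1.1 *ᵥ v)) m = 1 := by
          rw [e2, if_pos rfl, e1, if_neg (Ne.symm hmj), h1]; ring
        ext k
        by_cases hkm : k = m
        · subst hkm
          rw [e3, h2, if_neg (Ne.symm hmj), Pi.single_eq_same, add_zero]
        · by_cases hkj : k = j₀
          · subst hkj
            rw [e3, h2, if_pos rfl, e2, if_neg hmj, h1, Pi.single_eq_of_ne hmj]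
            ring
          · rw [e3, e2, e1, if_neg hkj, if_neg hkm, if_neg hkj, hp0 k hkm, Pi.single_eq_of_ne hkm]
            ring
      · intro w k hk
        rw [hcomp, hcomp, hfix1 _ _ hmj _ hj₀ _ k hk, hfix1 _ _ (Ne.symm hmj) _ hm _ k hk,
          hfix1 _ _ hmj _ hj₀ _ k hk]
      · intro w hw
        rw [hcomp, hcomp, hfix2 _ _ hmj _ hm w hw, hfix2 _ _ (Ne.symm hmj) _ hj₀ w hw,
          hfix2 _ _ hmj _ hm w hw]

/-- `1` plus a row, as a product of transvections -/
lemma row_mem (m : ι) (a : ι → D) : ∀ S : Finset ι, m ∉ S →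
    ∃ g ∈ Elm ι D, g.1 = 1 + ∑ k ∈ S, single m k (a k) := by
  intro S
  induction S using Finset.induction_on with
  | empty => exact fun _ => ⟨1, one_mem _, by simp⟩
  | insert k S hk ih =>
    intro hm
    rw [Finset.mem_insert, not_or] at hm
    obtain ⟨g, hg, hg1⟩ := ih hm.2
    refine ⟨g * Matrix.SpecialLinearGroup.transvection hm.1 (a k),
      mul_mem hg (trans_mem_Elm _ _), ?_⟩
    show g.1 * (Matrix.SpecialLinearGroup.transvection hm.1 (a k)).1 = _
    have h0 : (∑ l ∈ S, single m l (a l)) * single m k (a k) = 0 := by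
      rw [Finset.sum_mul]
      refine Finset.sum_eq_zero fun l hl => single_mul_single_of_ne _ _ _ _ ?_ _
      rintro rfl
      exact hm.2 hl
    rw [hg1, Matrix.SpecialLinearGroup.transvection_coe, Finset.sum_insert hk, mul_add, mul_one,
      add_mul, one_mul, h0, add_zero]
    abel

/-- **Generation by elementary matrices.** -/
theorem sl_gen (μ : D → ℕ) (hμ : ∀ x y : D, y ≠ 0 → ∃ q, μ (x - q * y) < μ y) :
    ∀ S : Finset ι, ∀ A : SpecialLinearGroup ι D,
      (∀ k, k ∉ S → A.1 *ᵥ Pi.single k 1 = Pi.single k 1) →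
      (∀ k, k ∉ S → ∀ v, (A.1 *ᵥ v) k = v k) → A ∈ Elm ι D := by
  have hent : ∀ (A : Matrix ι ι D) (i k : ι), (A *ᵥ Pi.single k 1) i = A i k := by
    intro A i k
    rw [mulVec_single_one]
    rfl
  have hcomp : ∀ g g' : SpecialLinearGroup ι D, ∀ w : ι → D, (g * g').1 *ᵥ w = g.1 *ᵥ (g'.1 *ᵥ w) := by
    intro g g' w
    rw [mulVec_mulVec]
    rfl
  intro S
  induction S using Finset.induction_on with
  | empty =>
    intro A hcol _
    have : A = 1 := by
      apply Subtype.ext
      ext i k
      show A.1 i k = (1 : Matrix ι ι D) i k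
      rw [← hent A.1 i k, hcol k (Finset.notMem_empty _), Pi.single_apply, one_apply]
    rw [this]
    exact one_mem _
  | insert m T hm ih =>
    intro A hcol hrow
    by_cases hT : T = ∅
    · subst hT
      -- the matrix is diagonal with one entry different from one
      have hA : A = 1 := by
        have h1 : A.1 = diagonal (fun i => if i = m then A.1 m m else 1) := by
          ext i k
          rw [diagonal_apply]
          by_cases hi : i = m
          · subst hi
            by_cases hk : k = i
            · subst hk; simp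
            · rw [if_neg (Ne.symm hk), ← hent A.1 i k, hcol k (by simpa using hk),
                Pi.single_eq_of_ne (Ne.symm hk)]
          · rw [if_neg hi, ← hent A.1 i k, hrow i (by simpa using hi)]
            rw [Pi.single_apply]
        have h2 : A.1.det = A.1 m m := by
          rw [h1, det_diagonal, Finset.prod_ite_eq' Finset.univ m, if_pos (Finset.mem_univ _)]
          simp
        have h3 : A.1 m m = 1 := by rw [← h2]; exact A.2
        apply Subtype.ext
        rw [h1, h3]
        show _ = (1 : Matrix ι ι D)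
        simp
      rw [hA]
      exact one_mem _
    · obtain ⟨j₀, hj₀⟩ := Finset.nonempty_iff_ne_empty.2 hT
      have hmj : j₀ ≠ m := fun h => hm (h ▸ hj₀)
      obtain ⟨g, hg, hg1, hg2, hg3⟩ := reduce μ hμ (insert m T) m j₀ (Finset.mem_insert_self _ _)
        (Finset.mem_insert_of_mem hj₀) hmj _ (A.1 *ᵥ Pi.single m 1) rfl (by
          intro k hk
          rw [hrow k hk, Pi.single_eq_of_ne]
          rintro rfl
          exact hk (Finset.mem_insert_self _ _)) (by
          refine ⟨A⁻¹.1 m, ?_⟩
          have h1 : A⁻¹.1 *ᵥ (A.1 *ᵥ Pi.single m 1) = Pi.single m 1 := by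
            rw [← hcomp, inv_mul_cancel]
            exact one_mulVec _
          have h2 := congrFun h1 m
          rw [Pi.single_eq_same] at h2
          exact h2)
      let A1 : SpecialLinearGroup ι D := g * A
      have c1 : A1.1 *ᵥ Pi.single m 1 = Pi.single m 1 := by rw [hcomp]; exact hg1
      have c2 : ∀ k, k ∉ insert m T → A1.1 *ᵥ Pi.single k 1 = Pi.single k 1 := by
        intro k hk
        rw [hcomp, hcol k hk]
        apply hg3
        intro l hl
        apply Pi.single_eq_of_ne
        rintro rfl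
        exact hk hl
      have c3 : ∀ k, k ∉ insert m T → ∀ v, (A1.1 *ᵥ v) k = v k := by
        intro k hk v
        rw [hcomp, hg2 _ k hk, hrow k hk v]
      obtain ⟨t, ht, ht1⟩ := row_mem m (fun k => -(A1.1 m k)) T hm
      let A2 : SpecialLinearGroup ι D := A1 * t
      have hv : ∀ v : ι → D, t.1 *ᵥ v = v + Pi.single m (∑ k ∈ T, -(A1.1 m k) * v k) := by
        intro v
        rw [ht1, add_mulVec, one_mulVec]
        congr 1
        ext l
        rw [Matrix.sum_mulVec]
        simp only [Finset.sum_apply, single_mulVec]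
        rw [Pi.single_apply]
        split_ifs with h
        · subst h
          refine Finset.sum_congr rfl fun k _ => ?_
          simp
        · refine Finset.sum_eq_zero fun k _ => ?_
          simp [h]
      have d1 : A2.1 *ᵥ Pi.single m 1 = Pi.single m 1 := by
        rw [hcomp, hv, Finset.sum_eq_zero, Pi.single_zero, add_zero, c1]
        intro k hk
        rw [Pi.single_eq_of_ne, mul_zero]
        rintro rfl
        exact hm hk
      have d2 : ∀ k, k ∉ T → A2.1 *ᵥ Pi.single k 1 = Pi.single k 1 := by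
        intro k hk
        by_cases hkm : k = m
        · rw [hkm]; exact d1
        · rw [hcomp, hv, Finset.sum_eq_zero, Pi.single_zero, add_zero]
          · apply c2
            rw [Finset.mem_insert, not_or]
            exact ⟨hkm, hk⟩
          · intro l hl
            rw [Pi.single_eq_of_ne, mul_zero]
            rintro rfl
            exact hk hl
      have d3 : ∀ k, k ∉ T → ∀ v, (A2.1 *ᵥ v) k = v k := by
        intro k hk v
        by_cases hkm : k = m
        · subst hkm
          have h1 : ∀ l, A2.1 k l = (1 : Matrix ι ι D) k l := by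
            intro l
            rw [← hent A2.1 k l]
            by_cases hl : l ∈ T
            · have hlk : l ≠ k := fun h => hk (h ▸ hl)
              have h5 : (Pi.single k (-(A1.1 k l)) : ι → D) = (-(A1.1 k l)) • Pi.single k 1 := by
                rw [← Pi.single_smul, smul_eq_mul, mul_one]
              rw [hcomp, hv, Finset.sum_eq_single_of_mem l hl (fun b _ hb => by
                rw [Pi.single_eq_of_ne hb, mul_zero]), Pi.single_eq_same, mul_one, mulVec_add, h5,
                mulVec_smul, c1, Pi.add_apply, hent, Pi.smul_apply, Pi.single_eq_same, smul_eq_mul,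
                mul_one, add_neg_cancel, one_apply_ne (Ne.symm hlk)]
            · rw [d2 l hl, Pi.single_apply, one_apply]
          have h2 : (A2.1 *ᵥ v) k = ((1 : Matrix ι ι D) *ᵥ v) k := by
            show ∑ i, A2.1 k i * v i = ∑ i, (1 : Matrix ι ι D) k i * v i
            exact Finset.sum_congr rfl (fun i _ => by rw [h1])
          rw [h2, one_mulVec]
        · have hk' : k ∉ insert m T := by
            rw [Finset.mem_insert, not_or]
            exact ⟨hkm, hk⟩
          rw [hcomp, c3 k hk', hv, Pi.add_apply, Pi.single_eq_of_ne hkm, add_zero]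
      have h1 := ih A2 d2 d3
      have h2 : A = g⁻¹ * A2 * t⁻¹ := by
        show A = g⁻¹ * (g * A * t) * t⁻¹
        group
      rw [h2]
      exact mul_mem (mul_mem (inv_mem hg) h1) (inv_mem ht)

/-- **Generation by elementary matrices.** -/
theorem Elm_eq_top (μ : D → ℕ) (hμ : ∀ x y : D, y ≠ 0 → ∃ q, μ (x - q * y) < μ y) :
    Elm ι D = ⊤ := by
  rw [eq_top_iff]
  intro A _
  exact sl_gen μ hμ Finset.univ A (fun k hk => absurd (Finset.mem_univ k) hk)
    (fun k hk => absurd (Finset.mem_univ k) hk)

end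

/-- The integers. -/
theorem Elm_int (ι : Type*) [DecidableEq ι] [Fintype ι] : Elm ι ℤ = ⊤ := by
  refine Elm_eq_top Int.natAbs fun x y hy => ⟨x / y, ?_⟩
  have h1 : x - x / y * y = x % y := by
    have := Int.emod_add_mul_ediv x y
    linarith
  rw [h1]
  have h2 := Int.emod_nonneg x hy
  have h3 := Int.emod_lt_abs x hy
  have h4 : ((x % y).natAbs : ℤ) < (y.natAbs : ℤ) := by
    rw [Int.natCast_natAbs, Int.natCast_natAbs, abs_of_nonneg h2]
    exact h3
  exact_mod_cast h4

end Pool.Agent.U943.PR
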