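import Pool.Agent.U943.PR.Orders
import Pool.Agent.U943.PR.Alg

/-!
# Groups of matrices with the same finite quotients as `SL (m, ℤ)`: residue fields
-/

set_option autoImplicit false

namespace Pool.Agent.U943.PR

open Matrix
open Pool.Agent.Helper460_CSP

/-- the elementary matrices in `GL` -/
def eG {n : ℕ} {R : Type} [CommRing R] {i j : Fin n} (h : i ≠ j) (r : R) : GL (Fin n) R :=
  Matrix.SpecialLinearGroup.toGL (Matrix.SpecialLinearGroup.transvection h r)

/-- the group contains the elementary matrices -/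
def HasE {n : ℕ} {R : Type} [CommRing R] (Λ : Subgroup (GL (Fin n) R)) : Prop :=
  ∀ (i j : Fin n) (h : i ≠ j) (r : R), eG h r ∈ Λ

/-- the same finite quotients -/
def SameQ (Λ : Type) [Group Λ] (m : ℕ) : Prop :=
  ∀ (Q : Type) [Group Q] [Finite Q], (∃ f : Λ →* Q, Function.Surjective f) ↔
    (∃ f : SZ m →* Q, Function.Surjective f)

lemma exists_third {m : ℕ} (hm : 3 ≤ m) (i j : Fin m) : ∃ k, k ≠ i ∧ k ≠ j := by
  by_contra hcon
  push Not at hcon
  have h1 : (Finset.univ : Finset (Fin m)) ⊆ {i, j} := by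
    intro x _
    rw [Finset.mem_insert, Finset.mem_singleton]
    by_cases h : x = i
    · exact Or.inl h
    · exact Or.inr (hcon x h)
  have h2 := Finset.card_le_card h1
  have h3 := Finset.card_le_two (a := i) (b := j)
  rw [Finset.card_univ, Fintype.card_fin] at h2
  omega

lemma trans_comm {ι R : Type*} [Fintype ι] [DecidableEq ι] [CommRing R] {i j k : ι} (hij : i ≠ j)
    (hik : i ≠ k) (hkj : k ≠ j) (a b : R) :
    (Matrix.SpecialLinearGroup.transvection hik a : SpecialLinearGroup ι R) *
      Matrix.SpecialLinearGroup.transvection hkj b * (Matrix.SpecialLinearGroup.transvection hik a)⁻¹ *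
      (Matrix.SpecialLinearGroup.transvection hkj b)⁻¹ = Matrix.SpecialLinearGroup.transvection hij (a * b) := by
  rw [Matrix.SpecialLinearGroup.transvection_inv, Matrix.SpecialLinearGroup.transvection_inv]
  apply Subtype.ext
  simp only [Matrix.SpecialLinearGroup.coe_mul, Matrix.SpecialLinearGroup.transvection_coe]
  have e1 : ∀ x y : R, single i k x * single k j y = single i j (x * y) := fun x y => by
    rw [single_mul_single_same]
  have e2 : ∀ x y : R, single k j x * single i k y = 0 := fun x y => by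
    rw [single_mul_single_of_ne _ _ _ _ hij.symm]
  have e3 : ∀ x y : R, single i k x * single i k y = 0 := fun x y => by
    rw [single_mul_single_of_ne _ _ _ _ hik.symm]
  have e4 : ∀ x y : R, single k j x * single k j y = 0 := fun x y => by
    rw [single_mul_single_of_ne _ _ _ _ hkj.symm]
  have e5 : ∀ x y : R, single i j x * single i k y = 0 := fun x y => by
    rw [single_mul_single_of_ne _ _ _ _ hij.symm]
  have e6 : ∀ x y : R, single i j x * single k j y = 0 := fun x y => by
    rw [single_mul_single_of_ne _ _ _ _ hkj.symm]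
  have n1 : ∀ (p q : ι) (x : R), single p q (-x) = - single p q x := fun p q x => by
    rw [single_neg]
  simp only [mul_add, add_mul, one_mul, mul_one, e1, e2, e3, e4, e5, e6, n1, mul_neg, neg_mul,
    neg_neg, add_zero, zero_add, neg_zero]
  abel

lemma hom_comm_trivial {m : ℕ} (hm : 3 ≤ m) {A : Type*} [CommGroup A] (f : SZ m →* A) (g : SZ m) :
    f g = 1 := by
  have h1 : El (Fin m) 1 ≤ f.ker := by
    apply El_le
    intro i j h
    obtain ⟨k, hki, hkj⟩ := exists_third hm i j
    have h2 := trans_comm (R := ℤ) h (Ne.symm hki) hkj 1 1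
    have h3 : tv i j h 1 = (Matrix.SpecialLinearGroup.transvection (Ne.symm hki) 1 : SZ m) *
      Matrix.SpecialLinearGroup.transvection hkj 1 * (Matrix.SpecialLinearGroup.transvection (Ne.symm hki) 1)⁻¹ *
      (Matrix.SpecialLinearGroup.transvection hkj 1)⁻¹ := by
      rw [h2, mul_one]
      rfl
    rw [h3, MonoidHom.mem_ker, map_mul, map_mul, map_mul, map_inv, map_inv]
    rw [mul_comm (f _) (f _), mul_inv_cancel_right, mul_inv_cancel]
  rw [El_one hm] at h1
  exact h1 (Subgroup.mem_top g)

section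

variable {n m : ℕ} {R : Type} [CommRing R] {Λ : Subgroup (GL (Fin n) R)}

lemma hom_trivial (hm : 3 ≤ m) (hq : SameQ Λ m) {A : Type} [CommGroup A] [Finite A] (f : Λ →* A)
    (g : Λ) : f g = 1 := by
  obtain ⟨φ, hφ⟩ := (hq f.range).1 ⟨f.rangeRestrict, f.rangeRestrict_surjective⟩
  obtain ⟨z, hz⟩ := hφ ⟨f g, ⟨g, rfl⟩⟩
  rw [hom_comm_trivial hm φ z] at hz
  exact (congrArg Subtype.val hz).symm

lemma det_one (hm : 3 ≤ m) (hq : SameQ Λ m) {A : Type} [CommRing A] [Finite A] (f : R →+* A)
    (g : Λ) : (f.mapMatrix (g.1 : Matrix (Fin n) (Fin n) R)).det = 1 := by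
  have h1 := hom_trivial hm hq (((Units.map (f : R →* A)).comp GeneralLinearGroup.det).comp
    Λ.subtype) g
  have h2 := congrArg Units.val h1
  rw [← RingHom.map_det]
  exact h2

/-- the reduction of `Λ` -/
def rho (hm : 3 ≤ m) (hq : SameQ Λ m) {A : Type} [CommRing A] [Finite A] (f : R →+* A) :
    Λ →* SpecialLinearGroup (Fin n) A where
  toFun := fun g => ⟨f.mapMatrix (g.1 : Matrix (Fin n) (Fin n) R), det_one hm hq f g⟩
  map_one' := by
    apply Subtype.ext
    show f.mapMatrix 1 = 1
    rw [map_one]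
  map_mul' := fun g h => by
    apply Subtype.ext
    show f.mapMatrix ((g.1 : Matrix (Fin n) (Fin n) R) * (h.1 : Matrix (Fin n) (Fin n) R)) = _
    rw [map_mul]
    rfl

lemma rho_eG (hm : 3 ≤ m) (hq : SameQ Λ m) (hE : HasE Λ) {A : Type} [CommRing A] [Finite A]
    (f : R →+* A) {i j : Fin n} (h : i ≠ j) (r : R) :
    rho hm hq f ⟨eG h r, hE i j h r⟩ = Matrix.SpecialLinearGroup.transvection h (f r) := by
  apply Subtype.ext
  ext a b
  show f ((transvection i j r) a b) = (transvection i j (f r)) a b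
  simp only [transvection, Matrix.add_apply, Matrix.one_apply, Matrix.single_apply, map_add]
  split_ifs <;> simp

/-- the map to `PSL` -/
def pih (hm : 3 ≤ m) (hq : SameQ Λ m) {F : Type} [Field F] [Finite F] (f : R →+* F) :
    Λ →* ProjectiveSpecialLinearGroup (Fin n) F :=
  (QuotientGroup.mk' _).comp (rho hm hq f)

lemma rho_surj (hn : 3 ≤ n) (hm : 3 ≤ m) (hq : SameQ Λ m) (hE : HasE Λ) {F : Type} [Field F]
    [Finite F] (f : R →+* F) (hf : Function.Surjective f) :
    Function.Surjective (rho hm hq f) := by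
  have := nontriv hn
  intro A
  rw [← MonoidHom.mem_range]
  refine Pool.Agent.H463R3.PSLn.transvection_induction (P := fun A => A ∈ (rho hm hq f).range) ?_
    (fun A B => mul_mem) A
  intro i j h c
  obtain ⟨r, rfl⟩ := hf c
  exact ⟨_, rho_eG hm hq hE f h r⟩

lemma pih_surj (hn : 3 ≤ n) (hm : 3 ≤ m) (hq : SameQ Λ m) (hE : HasE Λ) {F : Type} [Field F]
    [Finite F] (f : R →+* F) (hf : Function.Surjective f) :
    Function.Surjective (pih hm hq f) :=
  (QuotientGroup.mk'_surjective _).comp (rho_surj hn hm hq hE f hf)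

end

lemma psl_nonab {n : ℕ} (hn : 3 ≤ n) {F : Type*} [Field F] :
    ∃ x y : ProjectiveSpecialLinearGroup (Fin n) F, x * y ≠ y * x := by
  by_contra hcon
  push Not at hcon
  have hs := Pool.Agent.H463R3.PSLn.isSimpleGroup_PSL (F := F) (card3 hn)
  have h1 := Pool.Agent.H463R3.PSLn.PSL_commutator_eq_top (F := F) (card3 hn)
  obtain ⟨s, hs1⟩ := exists_ne (1 : ProjectiveSpecialLinearGroup (Fin n) F)
  apply hs1
  have h2 : s ∈ commutator (ProjectiveSpecialLinearGroup (Fin n) F) := by rw [h1]; trivial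
  have h3 : commutator (ProjectiveSpecialLinearGroup (Fin n) F) ≤ ⊥ := by
    rw [commutator_def, Subgroup.commutator_le]
    intro a _ b _
    rw [Subgroup.mem_bot, commutatorElement_def, hcon a b, mul_inv_cancel_right, mul_inv_cancel]
  exact Subgroup.mem_bot.1 (h3 h2)

instance psl_finite {n : ℕ} {F : Type*} [Field F] [Finite F] :
    Finite (ProjectiveSpecialLinearGroup (Fin n) F) :=
  Finite.of_surjective _ (QuotientGroup.mk'_surjective _)

/-- the kernel of a surjection onto `PSL` -/
lemma key_psl {n m : ℕ} (hn : 3 ≤ n) (hm : 3 ≤ m) {F : Type*} [Field F] [Finite F]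
    (π : SZ m →* ProjectiveSpecialLinearGroup (Fin n) F) (hπ : Function.Surjective π) :
    ∃ p : ℕ, p.Prime ∧ π.ker = KP m p := by
  have hs := Pool.Agent.H463R3.PSLn.isSimpleGroup_PSL (F := F) (card3 hn)
  exact key hm (psl_nonab hn) π hπ

lemma psl_trans_inj {n : ℕ} {F : Type*} [Field F] {i j : Fin n} (h : i ≠ j) (c : F) :
    (QuotientGroup.mk' (Subgroup.center (SpecialLinearGroup (Fin n) F))
      (Matrix.SpecialLinearGroup.transvection h c)) = 1 ↔ c = 0 := by
  rw [QuotientGroup.mk'_apply, QuotientGroup.eq_one_iff,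
    Matrix.SpecialLinearGroup.transvection_mem_center_iff]

lemma card_le_psl {n : ℕ} (hn : 3 ≤ n) {F : Type*} [Field F] [Finite F] :
    Nat.card F ≤ Nat.card (ProjectiveSpecialLinearGroup (Fin n) F) := by
  let i0 : Fin n := ⟨0, by omega⟩
  let i1 : Fin n := ⟨1, by omega⟩
  have h01 : i0 ≠ i1 := by simp [i0, i1]
  refine Nat.card_le_card_of_injective (fun c : F =>
    (QuotientGroup.mk' (Subgroup.center (SpecialLinearGroup (Fin n) F))
      (Matrix.SpecialLinearGroup.transvection h01 c))) ?_
  intro a b hab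
  have h1 : (QuotientGroup.mk' (Subgroup.center (SpecialLinearGroup (Fin n) F))
      (Matrix.SpecialLinearGroup.transvection h01 (a + -b))) = 1 := by
    rw [Matrix.SpecialLinearGroup.transvection_add, ← Matrix.SpecialLinearGroup.transvection_inv, map_mul,
      map_inv]
    exact mul_inv_eq_one.2 hab
  rw [psl_trans_inj] at h1
  linear_combination h1

end Pool.Agent.U943.PR
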