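import Pool.Agent.U943.PR.Filt
import Pool.Agent.Helper460_PR.Hopf

/-!
# Groups of matrices over commutative rings with the same finite quotients as `SL (m, ℤ)`
-/

set_option autoImplicit false

namespace Pool.Agent.U943.PR

open Matrix
open Pool.Agent.Helper460_CSP

section

variable {n m : ℕ} {R : Type} [CommRing R] {Λ : Subgroup (GL (Fin n) R)}

/-- The ring is finitely generated. -/
theorem ring_fg (hn : 3 ≤ n) (hE : HasE Λ) (hfg : Group.FG Λ) : Algebra.FiniteType ℤ R := by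
  classical
  obtain ⟨S, hS, hfin⟩ := Group.fg_iff.1 hfg
  let ent : Λ → Fin n × Fin n → R := fun g ij => (g.1 : Matrix (Fin n) (Fin n) R) ij.1 ij.2
  let X : Set R := (⋃ s ∈ S, Set.range (ent s)) ∪ (⋃ s ∈ S, Set.range (ent s⁻¹))
  have hX : X.Finite := by
    refine Set.Finite.union ?_ ?_
    · exact hfin.biUnion fun s _ => Set.finite_range _
    · exact hfin.biUnion fun s _ => Set.finite_range _
  let R₁ : Subalgebra ℤ R := Algebra.adjoin ℤ X
  have h1 : ∀ g : Λ, ∀ i j, (g.1 : Matrix (Fin n) (Fin n) R) i j ∈ R₁ := by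
    intro g
    have hg : g ∈ Subgroup.closure S := by rw [hS]; trivial
    have h2 : ∀ g ∈ Subgroup.closure S,
        (∀ i j, (g.1 : Matrix (Fin n) (Fin n) R) i j ∈ R₁) ∧
        (∀ i j, (g⁻¹.1 : Matrix (Fin n) (Fin n) R) i j ∈ R₁) := by
      intro g hg
      induction hg using Subgroup.closure_induction with
      | mem s hs =>
        refine ⟨fun i j => Algebra.subset_adjoin (Or.inl ?_),
          fun i j => Algebra.subset_adjoin (Or.inr ?_)⟩
        · exact Set.mem_biUnion hs ⟨(i, j), rfl⟩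
        · exact Set.mem_biUnion hs ⟨(i, j), rfl⟩
      | one =>
        have h3 : ∀ i j, (1 : Matrix (Fin n) (Fin n) R) i j ∈ R₁ := by
          intro i j
          rw [Matrix.one_apply]
          split_ifs
          · exact one_mem _
          · exact zero_mem _
        refine ⟨h3, ?_⟩
        rw [inv_one]
        exact h3
      | mul x y _ _ hx hy =>
        have hmul : ∀ a b : Λ, (∀ i j, (a.1 : Matrix (Fin n) (Fin n) R) i j ∈ R₁) →
            (∀ i j, (b.1 : Matrix (Fin n) (Fin n) R) i j ∈ R₁) →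
            ∀ i j, ((a * b).1 : Matrix (Fin n) (Fin n) R) i j ∈ R₁ := by
          intro a b ha hb i j
          show ((a.1 : Matrix (Fin n) (Fin n) R) * (b.1 : Matrix (Fin n) (Fin n) R)) i j ∈ R₁
          rw [Matrix.mul_apply]
          exact sum_mem fun k _ => mul_mem (ha i k) (hb k j)
        refine ⟨hmul x y hx.1 hy.1, ?_⟩
        rw [_root_.mul_inv_rev]
        exact hmul _ _ hy.2 hx.2
      | inv x _ hx =>
        refine ⟨hx.2, ?_⟩
        rw [inv_inv]
        exact hx.1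
    exact (h2 g hg).1
  let i0 : Fin n := ⟨0, by omega⟩
  let i1 : Fin n := ⟨1, by omega⟩
  have h01 : i0 ≠ i1 := by simp [i0, i1]
  refine ⟨⟨hX.toFinset, ?_⟩⟩
  rw [Set.Finite.coe_toFinset, eq_top_iff]
  intro r _
  have h2 := h1 ⟨eG h01 r, hE i0 i1 h01 r⟩ i0 i1
  have h3 : ((eG h01 r : GL (Fin n) R) : Matrix (Fin n) (Fin n) R) i0 i1 = r := by
    show (transvection i0 i1 r) i0 i1 = r
    simp [transvection, Matrix.one_apply_ne h01]
  rw [← h3]
  exact h2

/-- The ring is infinite. -/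
theorem ring_infinite (hm : 3 ≤ m) (hq : SameQ Λ m) : Infinite R := by
  by_contra hnot
  rw [not_infinite_iff_finite] at hnot
  have h1 : Finite (GL (Fin n) R) := inferInstance
  have h2 : Finite Λ := inferInstance
  obtain ⟨p, hp1, hp2⟩ := Nat.exists_infinite_primes (Nat.card Λ + 1)
  have : Fact p.Prime := ⟨hp2⟩
  obtain ⟨f, hf⟩ := (hq (ProjectiveSpecialLinearGroup (Fin m) (ZMod p))).2
    ⟨pip m p, pip_surj hm p⟩
  have h3 := Nat.card_le_card_of_surjective f hf
  have h4 := card_le_psl hm (F := ZMod p)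
  rw [Nat.card_zmod] at h4
  omega

/-- The determinants. -/
theorem det_alpha (hm : 3 ≤ m) (hq : SameQ Λ m) [Algebra.FiniteType ℤ R] (α : R →+* ℚ) (g : Λ) :
    α (g.1 : Matrix (Fin n) (Fin n) R).det = 1 := by
  have hJ : IsJacobsonRing R := isJacobsonRing_of_finiteType (A := ℤ)
  have hP : (RingHom.ker α).IsPrime := RingHom.ker_isPrime α
  have h1 : (g.1 : Matrix (Fin n) (Fin n) R).det - 1 ∈ (RingHom.ker α).jacobson := by
    refine Ideal.mem_sInf.2 fun {M} hM => ?_
    have hM' : M.IsMaximal := hM.2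
    let _ : Field (R ⧸ M) := Ideal.Quotient.field M
    have hft : @Algebra.FiniteType ℤ (R ⧸ M) _ _ (Ring.toIntAlgebra _) := by
      have h2 : @Algebra.FiniteType ℤ R _ _ (Ring.toIntAlgebra R) := by
        convert ‹Algebra.FiniteType ℤ R›
      exact Algebra.FiniteType.of_surjective (Ideal.Quotient.mk M).toIntAlgHom
        Ideal.Quotient.mk_surjective
    have hfin : Finite (R ⧸ M) := finite_field
    have h2 := det_one hm hq (Ideal.Quotient.mk M) g
    rw [← RingHom.map_det] at h2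
    rw [← Ideal.Quotient.eq_zero_iff_mem, map_sub, h2, map_one, sub_self]
  rw [hJ.out hP.isRadical, RingHom.mem_ker, map_sub, map_one, sub_eq_zero] at h1
  exact h1

/-- The map to `SL` over the image ring. -/
def bet (hm : 3 ≤ m) (hq : SameQ Λ m) [Algebra.FiniteType ℤ R] (α : R →+* ℚ) :
    Λ →* SpecialLinearGroup (Fin n) α.range where
  toFun := fun g => ⟨(α.rangeRestrict).mapMatrix (g.1 : Matrix (Fin n) (Fin n) R), by
    rw [← RingHom.map_det]
    exact Subtype.ext (det_alpha hm hq α g)⟩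
  map_one' := by
    apply Subtype.ext
    show (α.rangeRestrict).mapMatrix 1 = 1
    rw [map_one]
  map_mul' := fun g h => by
    apply Subtype.ext
    show (α.rangeRestrict).mapMatrix ((g.1 : Matrix (Fin n) (Fin n) R) *
      (h.1 : Matrix (Fin n) (Fin n) R)) = _
    rw [map_mul]
    rfl

lemma bet_eG (hm : 3 ≤ m) (hq : SameQ Λ m) (hE : HasE Λ) [Algebra.FiniteType ℤ R] (α : R →+* ℚ)
    {i j : Fin n} (h : i ≠ j) (r : R) :
    bet hm hq α ⟨eG h r, hE i j h r⟩ =
      Matrix.SpecialLinearGroup.transvection h (α.rangeRestrict r) := by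
  apply Subtype.ext
  refine Matrix.ext fun a b => ?_
  show α.rangeRestrict ((transvection i j r) a b) = (transvection i j (α.rangeRestrict r)) a b
  simp only [transvection, Matrix.add_apply, Matrix.one_apply, Matrix.single_apply, map_add]
  split_ifs <;> simp

lemma bet_surj (hm : 3 ≤ m) (hq : SameQ Λ m) (hE : HasE Λ) [Algebra.FiniteType ℤ R]
    (α : R →+* ℚ) : Function.Surjective (bet hm hq α) := by
  have h1 : Elm (Fin n) α.range ≤ (bet hm hq α).range := by
    unfold Elm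
    rw [Subgroup.closure_le]
    rintro _ ⟨i, j, h, x, rfl⟩
    obtain ⟨r, rfl⟩ := α.rangeRestrict_surjective x
    exact ⟨_, bet_eG hm hq hE α h r⟩
  rw [Elm_subring] at h1
  exact fun A => h1 (Subgroup.mem_top A)

lemma bet_ker (hm : 3 ≤ m) (hq : SameQ Λ m) [Algebra.FiniteType ℤ R] (α : R →+* ℚ) (g : Λ)
    (hg : bet hm hq α g = 1) : g ∈ Kf Λ (RingHom.ker α) := by
  rw [mem_Kf]
  intro i j
  have h1 : α.rangeRestrict ((g.1 : Matrix (Fin n) (Fin n) R) i j) =
      (1 : Matrix (Fin n) (Fin n) α.range) i j :=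
    congrArg (fun A : SpecialLinearGroup (Fin n) α.range => A.1 i j) hg
  have h2 : α ((g.1 : Matrix (Fin n) (Fin n) R) i j) =
      (((1 : Matrix (Fin n) (Fin n) α.range) i j : α.range) : ℚ) := congrArg Subtype.val h1
  rw [Matrix.sub_apply, RingHom.mem_ker, map_sub, h2, Matrix.one_apply, Matrix.one_apply]
  split_ifs <;> simp

/-- **No prime number is invertible.** -/
theorem no_inverse (hn : 3 ≤ n) (hq : SameQ Λ n) (hE : HasE Λ) [Algebra.FiniteType ℤ R]
    (α : R →+* ℚ) (w : ℕ) (hfin : Finite ((RingHom.ker α) ^ w : Ideal R)) (ℓ : ℕ) (hℓ : ℓ.Prime)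
    (y : α.range) (hy : (ℓ : α.range) * y = 1) : False := by
  classical
  have hℓF : Fact ℓ.Prime := ⟨hℓ⟩
  let B := Nat.card (ProjectiveSpecialLinearGroup (Fin n) (ZMod ℓ))
  let T : Finset ℕ := (Finset.range (B + 1)).filter (fun p => p.Prime ∧
    Nonempty (ProjectiveSpecialLinearGroup (Fin n) (ZMod p) ≃*
      ProjectiveSpecialLinearGroup (Fin n) (ZMod ℓ)))
  have hT : ∀ p : ℕ, p ∈ T ↔ p.Prime ∧
      Nonempty (ProjectiveSpecialLinearGroup (Fin n) (ZMod p) ≃*
        ProjectiveSpecialLinearGroup (Fin n) (ZMod ℓ)) := by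
    intro p
    rw [Finset.mem_filter, Finset.mem_range]
    constructor
    · exact fun h => h.2
    · rintro ⟨hp, ⟨e⟩⟩
      refine ⟨?_, hp, ⟨e⟩⟩
      have : Fact p.Prime := ⟨hp⟩
      have h1 := card_le_psl hn (F := ZMod p)
      rw [Nat.card_zmod, Nat.card_congr e.toEquiv] at h1
      show p < B + 1
      omega
  let c : ℕ := ∏ p ∈ T, p
  have hc0 : c ≠ 0 := Finset.prod_ne_zero_iff.2 fun p hp => ((hT p).1 hp).1.ne_zero
  let P := RingHom.ker α
  have hKfin : Finite (Kf Λ (P ^ (w + 1))) := Kf_finite (by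
    have h1 : P ^ (w + 1) ≤ P ^ w := Ideal.pow_le_pow_right (by omega)
    exact Finite.of_injective _ (Submodule.inclusion_injective h1))
  let j := Nat.card (Kf Λ (P ^ (w + 1)))
  have hj0 : 0 < j := Nat.card_pos
  have hj : Nat.card (Kf Λ (P ^ (w + 1))) < 2 ^ j := Nat.lt_two_pow_self
  have hM0 : NeZero (c ^ j) := ⟨pow_ne_zero _ hc0⟩
  obtain ⟨φ, hφ⟩ := (hq (rp n (c ^ j)).range).2
    ⟨(rp n (c ^ j)).rangeRestrict, (rp n (c ^ j)).rangeRestrict_surjective⟩
  have hpc : ∀ p : T, p.1 ∣ c := fun p => Finset.dvd_prod_of_mem _ p.2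
  have hpM : ∀ p : T, p.1 ∣ c ^ j := fun p => (hpc p).trans (dvd_pow_self c hj0.ne')
  let Φ : ∀ p : T, Λ →* ProjectiveSpecialLinearGroup (Fin n) (ZMod p.1) := fun p =>
    (kap n (hpM p)).comp ((rp n (c ^ j)).range.subtype.comp φ)
  have hΦs : ∀ p : T, Function.Surjective (Φ p) := by
    intro p s
    have : Fact p.1.Prime := ⟨((hT p.1).1 p.2).1⟩
    obtain ⟨z, hz⟩ := pip_surj hn p.1 s
    obtain ⟨g, hg⟩ := hφ ⟨rp n (c ^ j) z, ⟨z, rfl⟩⟩
    refine ⟨g, ?_⟩
    show kap n (hpM p) (φ g).1 = s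
    rw [hg]
    exact (kap_rp (hpM p) z).trans hz
  have hβ := bet_surj hn hq hE α
  have hker : ∀ p : T, (bet hn hq α).ker ≤ (Φ p).ker := by
    intro p g hg
    rw [MonoidHom.mem_ker] at hg ⊢
    exact kernel_trivial hn P w hfin hj φ hφ ((hT p.1).1 p.2).1 (hpc p) (hpM p) g
      (bet_ker hn hq α g hg)
  let Θ : ∀ p : T, SpecialLinearGroup (Fin n) α.range →*
      ProjectiveSpecialLinearGroup (Fin n) (ZMod p.1) := fun p =>
    (MonoidHom.liftOfSurjective (bet hn hq α) hβ) ⟨Φ p, hker p⟩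
  have hΘ : ∀ (p : T) (g : Λ), Θ p (bet hn hq α g) = Φ p g := fun p g =>
    MonoidHom.liftOfRightInverse_comp_apply _ _ _ _ _
  have hΘs : ∀ p : T, Function.Surjective (Θ p) := by
    intro p s
    obtain ⟨g, hg⟩ := hΦs p s
    exact ⟨bet hn hq α g, (hΘ p g).trans hg⟩
  let ψ : ∀ p : T, SZ n →* ProjectiveSpecialLinearGroup (Fin n) (ZMod p.1) := fun p =>
    (Θ p).comp (jD α.range n)
  have hψs : ∀ p : T, Function.Surjective (ψ p) := by
    intro p s
    have : Fact p.1.Prime := ⟨((hT p.1).1 p.2).1⟩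
    obtain ⟨A, hA⟩ := hΘs p s
    obtain ⟨z, hz⟩ := density α.range (Θ p) A
    exact ⟨z, hz.trans hA⟩
  have hkey : ∀ p : T, ∃ q : ℕ, q.Prime ∧ (ψ p).ker = KP n q := by
    intro p
    have : Fact p.1.Prime := ⟨((hT p.1).1 p.2).1⟩
    exact key_psl hn hn (ψ p) (hψs p)
  choose σ hσp hσ using hkey
  have hσT : ∀ p : T, σ p ∈ T := by
    intro p
    have : Fact (σ p).Prime := ⟨hσp p⟩
    rw [hT]
    refine ⟨hσp p, ?_⟩
    obtain ⟨e⟩ := ((hT p.1).1 p.2).2
    have e1 : SZ n ⧸ (pip n (σ p)).ker ≃* ProjectiveSpecialLinearGroup (Fin n) (ZMod (σ p)) :=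
      QuotientGroup.quotientKerEquivOfSurjective _ (pip_surj hn (σ p))
    have e2 : SZ n ⧸ (ψ p).ker ≃* ProjectiveSpecialLinearGroup (Fin n) (ZMod p.1) :=
      QuotientGroup.quotientKerEquivOfSurjective _ (hψs p)
    have e3 : SZ n ⧸ (pip n (σ p)).ker ≃* SZ n ⧸ (ψ p).ker :=
      QuotientGroup.quotientMulEquivOfEq (hσ p).symm
    exact ⟨((e1.symm.trans e3).trans e2).trans e⟩
  let i0 : Fin n := ⟨0, by omega⟩
  let i1 : Fin n := ⟨1, by omega⟩
  have h01 : i0 ≠ i1 := by simp [i0, i1]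
  let τ : T → T := fun p => ⟨σ p, hσT p⟩
  have hinj : Function.Injective τ := by
    intro p p' hpp
    by_contra hne
    have hσe : σ p = σ p' := congrArg Subtype.val hpp
    have hpP : p.1.Prime := ((hT p.1).1 p.2).1
    have hpP' : p'.1.Prime := ((hT p'.1).1 p'.2).1
    have : Fact p.1.Prime := ⟨hpP⟩
    have : Fact p'.1.Prime := ⟨hpP'⟩
    have hne' : p.1 ≠ p'.1 := fun h => hne (Subtype.ext h)
    let z : SZ n := tv i0 i1 h01 ((p'.1 : ℕ) : ℤ)
    obtain ⟨g, hg⟩ := hφ ⟨rp n (c ^ j) z, ⟨z, rfl⟩⟩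
    have h1 : Φ p g = pip n p.1 z := by
      show kap n (hpM p) (φ g).1 = _
      rw [hg]
      exact kap_rp (hpM p) z
    have h2 : Φ p' g = pip n p'.1 z := by
      show kap n (hpM p') (φ g).1 = _
      rw [hg]
      exact kap_rp (hpM p') z
    have h3 : pip n p.1 z ≠ 1 := by
      intro h
      have h4 : (QuotientGroup.mk' (Subgroup.center (SpecialLinearGroup (Fin n) (ZMod p.1))))
        (rp n p.1 z) = 1 := h
      rw [rp_tv, psl_trans_inj] at h4
      have h5 : ((p'.1 : ℕ) : ZMod p.1) = 0 := by exact_mod_cast h4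
      rw [ZMod.natCast_eq_zero_iff] at h5
      exact hne' ((Nat.prime_dvd_prime_iff_eq hpP hpP').1 h5)
    have h4 : pip n p'.1 z = 1 := by
      show (QuotientGroup.mk' (Subgroup.center (SpecialLinearGroup (Fin n) (ZMod p'.1))))
        (rp n p'.1 z) = 1
      rw [rp_tv, psl_trans_inj]
      have h5 : ((p'.1 : ℕ) : ZMod p'.1) = 0 := ZMod.natCast_self _
      exact_mod_cast h5
    obtain ⟨z', hz'⟩ := density α.range ((Θ p).prod (Θ p')) (bet hn hq α g)
    have h5 : Θ p (jD α.range n z') = Θ p (bet hn hq α g) := congrArg Prod.fst hz'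
    have h6 : Θ p' (jD α.range n z') = Θ p' (bet hn hq α g) := congrArg Prod.snd hz'
    rw [hΘ, h1] at h5
    rw [hΘ, h2, h4] at h6
    have h7 : z' ∈ (ψ p').ker := h6
    rw [hσ p', ← hσe, ← hσ p] at h7
    exact h3 (h5.symm.trans h7)
  have hsurj := Finite.surjective_of_injective hinj
  have hℓT : ℓ ∈ T := (hT ℓ).2 ⟨hℓ, ⟨MulEquiv.refl _⟩⟩
  obtain ⟨p, hp⟩ := hsurj ⟨ℓ, hℓT⟩
  have hp' : σ p = ℓ := congrArg Subtype.val hp
  have h1 := hσ p
  rw [hp'] at h1
  exact not_invertible α.range hn (Θ p) hℓ h1 y hy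

/-- The values are integers. -/
theorem integral_values (hn : 3 ≤ n) (hq : SameQ Λ n) (hE : HasE Λ) [Algebra.FiniteType ℤ R]
    (α : R →+* ℚ) (w : ℕ) (hfin : Finite ((RingHom.ker α) ^ w : Ideal R)) (r : R) :
    ∃ z : ℤ, (z : ℚ) = α r := by
  by_cases h : (α r).den = 1
  · exact ⟨(α r).num, (Rat.den_eq_one_iff _).1 h⟩
  · exfalso
    obtain ⟨ℓ, hℓ, k, hk⟩ := Nat.exists_prime_and_dvd h
    let x : α.range := ⟨α r, ⟨r, rfl⟩⟩
    let b : α.range := ⟨((α r).den : ℚ)⁻¹, inv_den_mem α.range x⟩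
    refine no_inverse hn hq hE α w hfin ℓ hℓ (k * b) ?_
    apply Subtype.ext
    show ((ℓ : α.range) : ℚ) * (((k : α.range) : ℚ) * ((α r).den : ℚ)⁻¹) = 1
    push_cast
    have h1 : ((α r).den : ℚ) = ℓ * k := by exact_mod_cast hk
    have h2 : ((α r).den : ℚ) ≠ 0 := by exact_mod_cast (α r).den_ne_zero
    rw [← mul_assoc, ← h1, mul_inv_cancel₀ h2]

/-- **Main theorem.** -/
theorem main (hn : 3 ≤ n) (hm : 3 ≤ m) (hE : HasE Λ) (hfg : Group.FG Λ)
    (hRF : ∀ g : Λ, g ≠ 1 → ∃ H : Subgroup Λ, H.index ≠ 0 ∧ g ∉ H) (hq : SameQ Λ m) :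
    n = m ∧ Nonempty (R ≃+* ℤ) ∧ Nonempty (Λ ≃* SZ m) := by
  classical
  have hft := ring_fg hn hE hfg
  have hinf := ring_infinite hm hq
  obtain ⟨hnm, α, w, hfin⟩ := structure2 hn hm hq hE
  subst hnm
  refine ⟨rfl, ?_⟩
  have hint := integral_values hn hq hE α w hfin
  choose f hf using hint
  have hinjQ : Function.Injective (Int.cast : ℤ → ℚ) := Int.cast_injective
  let F : R →+* ℤ :=
    { toFun := f
      map_one' := hinjQ (by rw [hf, map_one, Int.cast_one])
      map_mul' := fun x y => hinjQ (by rw [hf, map_mul, Int.cast_mul, hf, hf])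
      map_zero' := hinjQ (by rw [hf, map_zero, Int.cast_zero])
      map_add' := fun x y => hinjQ (by rw [hf, map_add, Int.cast_add, hf, hf]) }
  have hF : ∀ r, ((F r : ℤ) : ℚ) = α r := hf
  let G : Λ →* SZ n :=
    { toFun := fun g => ⟨F.mapMatrix (g.1 : Matrix (Fin n) (Fin n) R), by
        rw [← RingHom.map_det]
        apply hinjQ
        rw [hF, det_alpha hm hq α g, Int.cast_one]⟩
      map_one' := by
        apply Subtype.ext
        show F.mapMatrix 1 = 1
        rw [map_one]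
      map_mul' := fun g h => by
        apply Subtype.ext
        show F.mapMatrix ((g.1 : Matrix (Fin n) (Fin n) R) * (h.1 : Matrix (Fin n) (Fin n) R)) = _
        rw [map_mul]
        rfl }
  have hG : ∀ {i j : Fin n} (h : i ≠ j) (r : R), G ⟨eG h r, hE i j h r⟩ =
      Matrix.SpecialLinearGroup.transvection h (F r) := by
    intro i j h r
    apply Subtype.ext
    refine Matrix.ext fun a b => ?_
    show F ((transvection i j r) a b) = (transvection i j (F r)) a b
    simp only [transvection, Matrix.add_apply, Matrix.one_apply, Matrix.single_apply, map_add]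
    split_ifs <;> simp
  have hGs : Function.Surjective G := by
    have h1 : Elm (Fin n) ℤ ≤ G.range := by
      unfold Elm
      rw [Subgroup.closure_le]
      rintro _ ⟨i, j, h, x, rfl⟩
      refine ⟨⟨eG h (x : R), hE i j h _⟩, ?_⟩
      rw [hG, map_intCast]
      rfl
    rw [Elm_int] at h1
    exact fun A => h1 (Subgroup.mem_top A)
  have hGi : Function.Injective G := Pool.Agent.Helper460_PR.hopf hfg hRF hq G hGs
  refine ⟨⟨RingEquiv.ofBijective F ⟨?_, fun z => ⟨(z : R), map_intCast F z⟩⟩⟩,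
    ⟨MulEquiv.ofBijective G ⟨hGi, hGs⟩⟩⟩
  rw [injective_iff_map_eq_zero]
  intro r hr
  let i0 : Fin n := ⟨0, by omega⟩
  let i1 : Fin n := ⟨1, by omega⟩
  have h01 : i0 ≠ i1 := by simp [i0, i1]
  have h1 : (⟨eG h01 r, hE i0 i1 h01 r⟩ : Λ) = 1 := by
    apply hGi
    rw [hG, hr, map_one, Matrix.SpecialLinearGroup.transvection_coeff_zero]
  have h2 : ((eG h01 r : GL (Fin n) R) : Matrix (Fin n) (Fin n) R) i0 i1 =
      (1 : Matrix (Fin n) (Fin n) R) i0 i1 :=
    congrArg (fun g : Λ => ((g.1 : GL (Fin n) R) : Matrix (Fin n) (Fin n) R) i0 i1) h1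
  have h3 : ((eG h01 r : GL (Fin n) R) : Matrix (Fin n) (Fin n) R) i0 i1 = r := by
    show (transvection i0 i1 r) i0 i1 = r
    simp [transvection, Matrix.one_apply_ne h01]
  rw [h3, Matrix.one_apply_ne h01] at h2
  exact h2

end

end Pool.Agent.U943.PR
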