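import Pool.Agent.U943.PR.Key

/-!
# The characteristic of a finite field is determined by the group `PSL`

If `PSL (n, F)` is isomorphic to `SL (m, ℤ) / KP m p` and `F` has more than `m ^ 2 + 1` elements
then `p` is the characteristic of `F`.
-/

set_option autoImplicit false

namespace Pool.Agent.U943.PR

open Matrix

/-- Counting the characters of the additive group of a field in a representation in which they are
permuted by the multiplicative group. -/
lemma card_le_of_torus {K V F : Type*} [Field K] [AddCommGroup V] [Module K V]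
    [FiniteDimensional K V] [Field F] [Fintype F] (ψ : AddChar F K) (hψ : ψ.IsPrimitive)
    (hq : (Fintype.card F : K) ≠ 0) (u t s : F → Module.End K V) (u0 : u 0 = 1)
    (uadd : ∀ x y, u (x + y) = u x * u y) (ts : ∀ a, a ≠ 0 → s a * t a = 1)
    (htu : ∀ a, a ≠ 0 → ∀ x, u (a * x) * t a = t a * u x) (hne : ∃ y, u y ≠ 1) :
    Fintype.card F ≤ Module.finrank K V + 1 := by
  classical
  let E : F → Module.End K V := fun b => ∑ x, ψ (-(b * x)) • u x
  have hE : ∀ b y, u y * E b = ψ (b * y) • E b := by
    intro b y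
    simp only [E]
    rw [Finset.mul_sum, Finset.smul_sum,
      ← Equiv.sum_comp (Equiv.addRight y) (fun x => ψ (b * y) • ψ (-(b * x)) • u x)]
    refine Finset.sum_congr rfl fun x _ => ?_
    show u y * ψ (-(b * x)) • u x = ψ (b * y) • ψ (-(b * (x + y))) • u (x + y)
    rw [smul_smul, ← AddChar.map_add_eq_mul, mul_smul_comm, ← uadd, add_comm y x]
    congr 2
    ring
  have hsum : ∑ b, E b = (Fintype.card F : K) • (1 : Module.End K V) := by
    simp only [E]
    rw [Finset.sum_comm]
    have h1 : ∀ x : F, ∑ b : F, ψ (-(b * x)) • u x =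
        (if x = 0 then (Fintype.card F : K) else 0) • u x := by
      intro x
      rw [← Finset.sum_smul]
      congr 1
      have h2 := AddChar.sum_mulShift (ψ := ψ) (-x) hψ
      simp only [neg_eq_zero] at h2
      rw [Nat.cast_ite, Nat.cast_zero] at h2
      rw [← h2]
      refine Finset.sum_congr rfl fun b _ => ?_
      rw [mul_neg]
    rw [Finset.sum_congr rfl (fun x _ => h1 x)]
    simp only [ite_smul, zero_smul]
    rw [Finset.sum_ite_eq' Finset.univ 0, if_pos (Finset.mem_univ _), u0]
  -- a nonzero joint eigenspace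
  obtain ⟨b, hb0, v, hv0, hv⟩ : ∃ b : F, b ≠ 0 ∧ ∃ v : V, v ≠ 0 ∧ ∀ y, u y v = ψ (b * y) • v := by
    by_contra hcon
    push Not at hcon
    have hz : ∀ b : F, b ≠ 0 → E b = 0 := by
      intro b hb
      ext v
      by_contra hne
      obtain ⟨y, hy⟩ := hcon b hb (E b v) hne
      apply hy
      have := congrArg (fun f : Module.End K V => f v) (hE b y)
      exact this
    have h0 : E 0 = (Fintype.card F : K) • (1 : Module.End K V) := by
      rw [← hsum]
      exact (Finset.sum_eq_single_of_mem 0 (Finset.mem_univ _) (fun b _ hb => hz b hb)).symm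
    obtain ⟨y, hy⟩ := hne
    apply hy
    have h1 := hE 0 y
    rw [h0, zero_mul, AddChar.map_zero_eq_one, one_smul, mul_smul_comm, mul_one] at h1
    exact smul_right_injective _ hq h1
  have hall : ∀ c : {c : F // c ≠ 0}, ∃ w : V, w ≠ 0 ∧ ∀ y, u y w = ψ (c.1 * y) • w := by
    rintro ⟨c, hc⟩
    have ha : b * c⁻¹ ≠ 0 := mul_ne_zero hb0 (inv_ne_zero hc)
    refine ⟨t (b * c⁻¹) v, ?_, ?_⟩
    · intro h
      apply hv0
      have h1 : (s (b * c⁻¹) * t (b * c⁻¹)) v = 0 := by
        rw [Module.End.mul_apply, h, map_zero]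
      rwa [ts _ ha] at h1
    · intro y
      have h1 := congrArg (fun f : Module.End K V => f v) (htu (b * c⁻¹) ha ((b * c⁻¹)⁻¹ * y))
      simp only [Module.End.mul_apply] at h1
      rw [mul_inv_cancel_left₀ ha, hv, map_smul] at h1
      rw [h1]
      congr 2
      field_simp
  choose w hw0 hw using hall
  have hli : LinearIndependent K w := by
    rw [Fintype.linearIndependent_iff]
    intro g hg c
    have h1 : ∀ d : {c : F // c ≠ 0}, E c.1 (w d) = (if d = c then (Fintype.card F : K) else 0) • w d := by
      intro d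
      simp only [E, LinearMap.sum_apply, LinearMap.smul_apply, hw, smul_smul]
      rw [← Finset.sum_smul]
      congr 1
      have h2 := AddChar.sum_mulShift (ψ := ψ) (d.1 - c.1) hψ
      have h3 : (d.1 - c.1 = 0) ↔ d = c := by rw [sub_eq_zero, Subtype.ext_iff]
      simp only [h3] at h2
      rw [Nat.cast_ite, Nat.cast_zero] at h2
      rw [← h2]
      refine Finset.sum_congr rfl fun x _ => ?_
      rw [← AddChar.map_add_eq_mul]
      congr 1
      ring
    have h2 := congrArg (E c.1) hg
    rw [map_sum, map_zero] at h2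
    simp only [map_smul, h1] at h2
    rw [Finset.sum_eq_single_of_mem c (Finset.mem_univ _) (by
      intro d _ hd
      rw [if_neg hd, zero_smul, smul_zero]), if_pos rfl, smul_smul] at h2
    rcases smul_eq_zero.1 h2 with h3 | h3
    · exact (mul_eq_zero.1 h3).resolve_right hq
    · exact absurd h3 (hw0 c)
  have h1 := hli.fintype_card_le_finrank
  have h2 : Fintype.card {c : F // c ≠ 0} = Fintype.card F - 1 := by
    rw [Fintype.card_subtype_compl, Fintype.card_subtype_eq]
  omega

section conj

variable {m : ℕ} {K : Type*} [Field K]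

/-- the matrix over `K` -/
def GK (g : SZ m) : Matrix (Fin m) (Fin m) K := (Int.castRingHom K).mapMatrix g.1

lemma GK_mul (g h : SZ m) : (GK (g * h) : Matrix (Fin m) (Fin m) K) = GK g * GK h := by
  unfold GK
  rw [Matrix.SpecialLinearGroup.coe_mul, map_mul]

lemma GK_one : (GK (1 : SZ m) : Matrix (Fin m) (Fin m) K) = 1 := by
  unfold GK
  rw [Matrix.SpecialLinearGroup.coe_one, map_one]

variable (K) in
/-- the conjugation action -/
def cj : SZ m →* Module.End K (Matrix (Fin m) (Fin m) K) where
  toFun := fun g => LinearMap.mulLeft K (GK g) * LinearMap.mulRight K (GK g⁻¹)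
  map_one' := by
    ext X
    simp [GK_one]
  map_mul' := fun g h => by
    ext1 X
    rw [_root_.mul_inv_rev]
    simp only [Module.End.mul_apply, LinearMap.mulLeft_apply, LinearMap.mulRight_apply, GK_mul,
      mul_assoc]

lemma cj_apply (g : SZ m) (X : Matrix (Fin m) (Fin m) K) : cj K g X = GK g * (X * GK g⁻¹) := rfl

lemma cj_one_iff (hm : 3 ≤ m) {p : ℕ} [Fact p.Prime] [CharP K p] (g : SZ m) :
    cj K g = 1 ↔ g ∈ KP m p := by
  have hinj : Function.Injective (ZMod.castHom (dvd_refl p) K) := (ZMod.castHom (dvd_refl p) K).injective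
  have hGK : ∀ h : SZ m, (GK h : Matrix (Fin m) (Fin m) K) =
      (ZMod.castHom (dvd_refl p) K).mapMatrix (rp m p h).1 := by
    intro h
    ext i j
    show ((h.1 i j : ℤ) : K) = (ZMod.castHom (dvd_refl p) K) ((h.1 i j : ℤ) : ZMod p)
    rw [map_intCast]
  have hKP : g ∈ KP m p ↔ rp m p g ∈ Subgroup.center (SpecialLinearGroup (Fin m) (ZMod p)) := by
    exact QuotientGroup.eq_one_iff (N := Subgroup.center (SpecialLinearGroup (Fin m) (ZMod p)))
      (rp m p g)
  rw [hKP]
  constructor
  · intro h
    rw [Subgroup.mem_center_iff]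
    intro B
    obtain ⟨b, rfl⟩ := rp_surj hm p B
    have h1 : cj K g (GK b) = GK b := by rw [h]; rfl
    rw [cj_apply] at h1
    have h2 : (GK g * GK b : Matrix (Fin m) (Fin m) K) = GK b * GK g := by
      have h3 := congrArg (fun X : Matrix (Fin m) (Fin m) K => X * GK g) h1
      simp only [mul_assoc] at h3
      rw [← GK_mul, inv_mul_cancel, GK_one, mul_one] at h3
      exact h3
    rw [← GK_mul, ← GK_mul, hGK, hGK] at h2
    have h4 : (rp m p (b * g)).1 = (rp m p (g * b)).1 := by
      ext i j
      exact hinj (congrFun (congrFun h2 i) j).symm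
    rw [← map_mul, ← map_mul]
    exact Subtype.ext h4
  · intro h
    rw [Matrix.SpecialLinearGroup.mem_center_iff] at h
    obtain ⟨r, _, hr⟩ := h
    have h1 : (GK g : Matrix (Fin m) (Fin m) K) = scalar (Fin m) ((ZMod.castHom (dvd_refl p) K) r) := by
      rw [hGK]
      have : (rp m p g).1 = scalar (Fin m) r := hr.symm
      rw [this]
      ext i j
      simp only [RingHom.mapMatrix_apply, Matrix.map_apply, scalar_apply, diagonal_apply]
      split_ifs <;> simp
    ext1 X
    show cj K g X = X
    rw [cj_apply, ← mul_assoc, h1, (scalar_commute _ (Commute.all _) X).eq, ← h1, mul_assoc,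
      ← GK_mul, mul_inv_cancel, GK_one, mul_one]

end conj

lemma diag_conj {ι F : Type*} [Fintype ι] [DecidableEq ι] [Field F] {i j k : ι} (hij : i ≠ j)
    (hik : i ≠ k) (hkj : k ≠ j) (a : F) (ha : a ≠ 0) (x : F) :
    (Matrix.SpecialLinearGroup.transvection hij (a * x) : SpecialLinearGroup ι F) *
      Matrix.SpecialLinearGroup.diag2n hik a ha =
    Matrix.SpecialLinearGroup.diag2n hik a ha * Matrix.SpecialLinearGroup.transvection hij x := by
  apply Subtype.ext
  simp only [Matrix.SpecialLinearGroup.coe_mul, Matrix.SpecialLinearGroup.transvection_coe,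
    Matrix.SpecialLinearGroup.diag2n_coe, add_mul, mul_add, one_mul, mul_one]
  congr 1
  ext r s
  rw [Matrix.mul_diagonal, Matrix.diagonal_mul, Matrix.single_apply, Matrix.single_apply]
  by_cases h : i = r ∧ j = s
  · obtain ⟨rfl, rfl⟩ := h
    simp [hij.symm, hkj.symm]
  · simp [h]

/-- **The characteristic is determined.** -/
theorem char_eq {n m : ℕ} (hn : 3 ≤ n) (hm : 3 ≤ m) {F : Type*} [Field F] [Finite F] {p : ℕ}
    (hp : p.Prime) (hF : m ^ 2 + 1 < Nat.card F)
    (π : SZ m →* ProjectiveSpecialLinearGroup (Fin n) F) (hπ : Function.Surjective π)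
    (hker : π.ker = KP m p) : CharP F p := by
  classical
  have := Fintype.ofFinite F
  have hpF : Fact p.Prime := ⟨hp⟩
  by_contra hne
  have hrc : ringChar (ZMod p) ≠ ringChar F := by
    intro h
    apply hne
    rw [ZMod.ringChar_zmod_n] at h
    rw [h]
    exact ringChar.charP F
  let P := AddChar.FiniteField.primitiveChar F (ZMod p) hrc
  let K := CyclotomicField P.n (ZMod p)
  have hK : CharP K p := charP_of_injective_algebraMap (algebraMap (ZMod p) K).injective p
  have hker2 : π.ker = (cj K (m := m)).ker := by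
    rw [hker]
    ext g
    rw [MonoidHom.mem_ker, cj_one_iff hm (p := p)]
  have hker3 : π.ker ≤ ((cj K (m := m)).toHomUnits).ker := by
    rw [hker2]
    intro g hg
    rw [MonoidHom.mem_ker] at hg ⊢
    exact Units.ext hg
  let Θ : ProjectiveSpecialLinearGroup (Fin n) F →* Module.End K (Matrix (Fin m) (Fin m) K) :=
    (Units.coeHom _).comp ((MonoidHom.liftOfSurjective π hπ) ⟨(cj K).toHomUnits, hker3⟩)
  have hΘ : ∀ g, Θ (π g) = cj K g := fun g => by
    have h1 : (MonoidHom.liftOfSurjective π hπ) ⟨(cj K).toHomUnits, hker3⟩ (π g) =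
      (cj K).toHomUnits g := MonoidHom.liftOfRightInverse_comp_apply _ _ _ _ _
    exact congrArg Units.val h1
  have hΘinj : ∀ s, Θ s = 1 → s = 1 := by
    intro s hs
    obtain ⟨g, rfl⟩ := hπ s
    rw [hΘ] at hs
    have : g ∈ π.ker := by rw [hker2]; exact hs
    exact this
  let i0 : Fin n := ⟨0, by omega⟩
  let i1 : Fin n := ⟨1, by omega⟩
  let i2 : Fin n := ⟨2, by omega⟩
  have h01 : i0 ≠ i1 := by simp [i0, i1]
  have h02 : i0 ≠ i2 := by simp [i0, i2]
  have h21 : i2 ≠ i1 := by simp [i2, i1]
  let T : SpecialLinearGroup (Fin n) F →* Module.End K (Matrix (Fin m) (Fin m) K) :=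
    Θ.comp (QuotientGroup.mk' _)
  have hq : (Fintype.card F : K) ≠ 0 := by
    intro h
    rw [CharP.cast_eq_zero_iff K p] at h
    apply hne
    obtain ⟨k, hk1, hk2⟩ := FiniteField.card F (ringChar F)
    rw [hk2] at h
    have h2 := (Nat.prime_dvd_prime_iff_eq hp hk1).1 (hp.dvd_of_dvd_pow h)
    rw [h2]
    exact ringChar.charP F
  have h1 := card_le_of_torus P.char P.prim hq
    (fun x => T (Matrix.SpecialLinearGroup.transvection h01 x))
    (fun a => if ha : a = 0 then 1 else T (Matrix.SpecialLinearGroup.diag2n h02 a ha))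
    (fun a => if ha : a = 0 then 1 else T (Matrix.SpecialLinearGroup.diag2n h02 a ha)⁻¹)
    (by simp only [Matrix.SpecialLinearGroup.transvection_coeff_zero, map_one])
    (fun x y => by rw [Matrix.SpecialLinearGroup.transvection_add, map_mul])
    (fun a ha => by rw [dif_neg ha, dif_neg ha, ← map_mul, inv_mul_cancel, map_one])
    (fun a ha x => by rw [dif_neg ha, ← map_mul, ← map_mul, diag_conj h01 h02 h21])
    ⟨1, fun h => by
      have h3 : (QuotientGroup.mk' (Subgroup.center (SpecialLinearGroup (Fin n) F))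
        (Matrix.SpecialLinearGroup.transvection h01 1)) = 1 := hΘinj _ h
      rw [QuotientGroup.mk'_apply, QuotientGroup.eq_one_iff,
        Matrix.SpecialLinearGroup.transvection_mem_center_iff] at h3
      exact one_ne_zero h3⟩
  rw [Module.finrank_matrix, Fintype.card_fin, Module.finrank_self, mul_one] at h1
  rw [Nat.card_eq_fintype_card] at hF
  nlinarith

end Pool.Agent.U943.PR
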