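import Pool.Agent.U943.PR.Grp

/-!
# Groups of matrices with the same finite quotients as `SL (m, ℤ)`: homomorphisms to fields
-/

set_option autoImplicit false

namespace Pool.Agent.U943.PR

open Matrix
open Pool.Agent.Helper460_CSP

lemma card_psl_le (m p : ℕ) [Fact p.Prime] :
    Nat.card (ProjectiveSpecialLinearGroup (Fin m) (ZMod p)) ≤ p ^ (m ^ 2) := by
  have h1 : Nat.card (ProjectiveSpecialLinearGroup (Fin m) (ZMod p)) ≤
      Nat.card (SpecialLinearGroup (Fin m) (ZMod p)) :=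
    Nat.card_le_card_of_surjective _ (QuotientGroup.mk'_surjective _)
  have h2 : Nat.card (SpecialLinearGroup (Fin m) (ZMod p)) ≤
      Nat.card (Matrix (Fin m) (Fin m) (ZMod p)) :=
    Nat.card_le_card_of_injective (fun A => A.1) Subtype.val_injective
  refine h1.trans (h2.trans (le_of_eq ?_))
  have h3 : Nat.card (Matrix (Fin m) (Fin m) (ZMod p)) = Nat.card (Fin m → Fin m → ZMod p) := rfl
  rw [h3, Nat.card_fun, Nat.card_fun, Nat.card_zmod, Nat.card_fin, ← pow_mul, sq]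

lemma charP_of_cast {F : Type*} [Field F] {p : ℕ} (hp : p.Prime) (h : (p : F) = 0) : CharP F p := by
  obtain ⟨q, hq⟩ := CharP.exists F
  have h2 := (CharP.cast_eq_zero_iff F q p).1 h
  have h3 : q ≠ 1 := CharP.char_ne_one F q
  rcases (Nat.dvd_prime hp).1 h2 with h4 | h4
  · exact absurd h4 h3
  · rwa [← h4]

lemma le_card_of_charP {F : Type*} [Field F] [Finite F] {p : ℕ} (hp : p.Prime) [CharP F p] :
    p ≤ Nat.card F := by
  have : Fact p.Prime := ⟨hp⟩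
  have h1 := Nat.card_le_card_of_injective _ (ZMod.castHom (dvd_refl p) F).injective
  rwa [Nat.card_zmod] at h1

section

variable {n m : ℕ} {R : Type} [CommRing R] {Λ : Subgroup (GL (Fin n) R)}

lemma psl_card_eq (hm : 3 ≤ m) {p : ℕ} [Fact p.Prime] {F : Type} [Field F]
    (π : SZ m →* ProjectiveSpecialLinearGroup (Fin n) F) (hπ : Function.Surjective π)
    (hker : π.ker = KP m p) : Nat.card (ProjectiveSpecialLinearGroup (Fin n) F) =
      Nat.card (ProjectiveSpecialLinearGroup (Fin m) (ZMod p)) := by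
  rw [← Nat.card_congr (QuotientGroup.quotientKerEquivOfSurjective π hπ).toEquiv, hker]
  exact Nat.card_congr (QuotientGroup.quotientKerEquivOfSurjective _ (pip_surj hm p)).toEquiv

/-- The quotients of `R` by prime ideals which contain a prime number are finite. -/
theorem finite_quot (hn : 3 ≤ n) (hm : 3 ≤ m) (hq : SameQ Λ m) (hE : HasE Λ)
    [Algebra.FiniteType ℤ R] (P : Ideal R) (p : ℕ) (hP : P.IsPrime) (hp : p.Prime)
    (hpP : (p : R) ∈ P) : Finite (R ⧸ P) := by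
  by_contra hinf
  have hinf' : Infinite (R ⧸ P) := not_finite_iff_infinite.1 hinf
  have hpF : Fact p.Prime := ⟨hp⟩
  have hft : @Algebra.FiniteType ℤ (R ⧸ P) _ _ (Ring.toIntAlgebra _) := by
    have h2 : @Algebra.FiniteType ℤ R _ _ (Ring.toIntAlgebra R) := by
      convert ‹Algebra.FiniteType ℤ R›
    exact Algebra.FiniteType.of_surjective (Ideal.Quotient.mk P).toIntAlgHom
      Ideal.Quotient.mk_surjective
  obtain ⟨M, hM, hcard⟩ := exists_large (D := R ⧸ P) (max (p ^ (m ^ 2)) (m ^ 2 + 1))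
  let F := (R ⧸ P) ⧸ M
  let _ : Field F := Ideal.Quotient.field M
  have hftF : @Algebra.FiniteType ℤ F _ _ (Ring.toIntAlgebra _) :=
    Algebra.FiniteType.of_surjective (Ideal.Quotient.mk M).toIntAlgHom
      Ideal.Quotient.mk_surjective
  have hfin : Finite F := finite_field
  let f : R →+* F := (Ideal.Quotient.mk M).comp (Ideal.Quotient.mk P)
  have hf : Function.Surjective f := Ideal.Quotient.mk_surjective.comp Ideal.Quotient.mk_surjective
  obtain ⟨π, hπ⟩ := (hq (ProjectiveSpecialLinearGroup (Fin n) F)).1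
    ⟨pih hm hq f, pih_surj hn hm hq hE f hf⟩
  obtain ⟨p', hp', hker⟩ := key_psl hn hm π hπ
  have h1 : CharP F p' := char_eq hn hm hp' (lt_of_le_of_lt (le_max_right _ _) hcard) π hπ hker
  have h2 : CharP F p := by
    apply charP_of_cast hp
    have h3 : f (p : R) = 0 := by
      show Ideal.Quotient.mk M (Ideal.Quotient.mk P (p : R)) = 0
      rw [Ideal.Quotient.eq_zero_iff_mem.2 hpP, map_zero]
    rwa [map_natCast] at h3
  have h3 : p' = p := CharP.eq F h1 h2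
  subst h3
  have h4 := psl_card_eq hm π hπ hker
  have h5 := card_psl_le m p'
  have h6 := card_le_psl hn (F := F)
  have h7 : p' ^ (m ^ 2) < Nat.card F := lt_of_le_of_lt (le_max_left _ _) hcard
  omega

/-- Two residue fields of the same large characteristic have the same kernel. -/
lemma ker_le (hn : 3 ≤ n) (hm : 3 ≤ m) (hq : SameQ Λ m) (hE : HasE Λ) {ℓ : ℕ} (hℓ : ℓ.Prime)
    (hℓm : m ^ 2 + 1 < ℓ) {F₁ F₂ : Type} [Field F₁] [Field F₂] [Finite F₁] [Finite F₂]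
    [CharP F₁ ℓ] [CharP F₂ ℓ] (f₁ : R →+* F₁) (f₂ : R →+* F₂) (h₁ : Function.Surjective f₁)
    (h₂ : Function.Surjective f₂) (r : R) (hr : f₁ r = 0) : f₂ r = 0 := by
  let Φ : Λ →* ProjectiveSpecialLinearGroup (Fin n) F₁ × ProjectiveSpecialLinearGroup (Fin n) F₂ :=
    (pih hm hq f₁).prod (pih hm hq f₂)
  obtain ⟨φ, hφ⟩ := (hq Φ.range).1 ⟨Φ.rangeRestrict, Φ.rangeRestrict_surjective⟩
  let π₁ : SZ m →* ProjectiveSpecialLinearGroup (Fin n) F₁ :=
    (MonoidHom.fst _ _).comp (Φ.range.subtype.comp φ)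
  let π₂ : SZ m →* ProjectiveSpecialLinearGroup (Fin n) F₂ :=
    (MonoidHom.snd _ _).comp (Φ.range.subtype.comp φ)
  have hπ₁ : Function.Surjective π₁ := by
    intro s
    obtain ⟨g, hg⟩ := pih_surj hn hm hq hE f₁ h₁ s
    obtain ⟨z, hz⟩ := hφ ⟨Φ g, ⟨g, rfl⟩⟩
    refine ⟨z, ?_⟩
    show (φ z).1.1 = s
    rw [hz]
    exact hg
  have hπ₂ : Function.Surjective π₂ := by
    intro s
    obtain ⟨g, hg⟩ := pih_surj hn hm hq hE f₂ h₂ s
    obtain ⟨z, hz⟩ := hφ ⟨Φ g, ⟨g, rfl⟩⟩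
    refine ⟨z, ?_⟩
    show (φ z).1.2 = s
    rw [hz]
    exact hg
  obtain ⟨p₁, hp₁, hk₁⟩ := key_psl hn hm π₁ hπ₁
  obtain ⟨p₂, hp₂, hk₂⟩ := key_psl hn hm π₂ hπ₂
  have c₁ : CharP F₁ p₁ := char_eq hn hm hp₁ (hℓm.trans_le (le_card_of_charP hℓ)) π₁ hπ₁ hk₁
  have c₂ : CharP F₂ p₂ := char_eq hn hm hp₂ (hℓm.trans_le (le_card_of_charP hℓ)) π₂ hπ₂ hk₂
  have e₁ : p₁ = ℓ := CharP.eq F₁ c₁ ‹CharP F₁ ℓ›
  have e₂ : p₂ = ℓ := CharP.eq F₂ c₂ ‹CharP F₂ ℓ›
  rw [e₁] at hk₁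
  rw [e₂] at hk₂
  let i0 : Fin n := ⟨0, by omega⟩
  let i1 : Fin n := ⟨1, by omega⟩
  have h01 : i0 ≠ i1 := by simp [i0, i1]
  let g : Λ := ⟨eG h01 r, hE i0 i1 h01 r⟩
  obtain ⟨z, hz⟩ := hφ ⟨Φ g, ⟨g, rfl⟩⟩
  have hz1 : π₁ z = 1 := by
    show (φ z).1.1 = 1
    rw [hz]
    show (QuotientGroup.mk' (Subgroup.center (SpecialLinearGroup (Fin n) F₁)))
      (rho hm hq f₁ g) = 1
    rw [rho_eG hm hq hE, psl_trans_inj]
    exact hr
  have hz2 : π₂ z = 1 := by
    rw [← MonoidHom.mem_ker, hk₂, ← hk₁, MonoidHom.mem_ker]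
    exact hz1
  have hz3 : (QuotientGroup.mk' (Subgroup.center (SpecialLinearGroup (Fin n) F₂)))
      (rho hm hq f₂ g) = 1 := by
    have : (φ z).1.2 = 1 := hz2
    rw [hz] at this
    exact this
  rw [rho_eG hm hq hE, psl_trans_inj] at hz3
  exact hz3

/-- Large residue fields are prime fields, and `n = m`. -/
lemma card_resid (hn : 3 ≤ n) (hm : 3 ≤ m) (hq : SameQ Λ m) (hE : HasE Λ) {ℓ : ℕ} (hℓ : ℓ.Prime)
    (hℓm : m ^ 2 + 1 < ℓ) (hℓn : 2 ^ n * n < ℓ) (hℓm' : 2 ^ m * m < ℓ) {F : Type} [Field F]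
    [Finite F] [CharP F ℓ] (f : R →+* F) (h : Function.Surjective f) : n = m ∧ Nat.card F = ℓ := by
  obtain ⟨π, hπ⟩ := (hq (ProjectiveSpecialLinearGroup (Fin n) F)).1
    ⟨pih hm hq f, pih_surj hn hm hq hE f h⟩
  obtain ⟨p, hp, hker⟩ := key_psl hn hm π hπ
  have h1 : CharP F p := char_eq hn hm hp (hℓm.trans_le (le_card_of_charP hℓ)) π hπ hker
  have h2 : p = ℓ := CharP.eq F h1 ‹CharP F ℓ›
  subst h2
  exact orders hn hm hp hℓn hℓm' π hπ hker

/-- the bound -/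
def LL (n m : ℕ) : ℕ := (m ^ 2 + 1) + 2 ^ n * n + 2 ^ m * m

lemma ker_max (hn : 3 ≤ n) (hm : 3 ≤ m) (hq : SameQ Λ m) (hE : HasE Λ)
    [Algebra.FiniteType ℤ R] {ℓ : ℕ} [Fact ℓ.Prime] (a : R →+* AlgebraicClosure (ZMod ℓ)) :
    Finite (R ⧸ RingHom.ker a) ∧ (RingHom.ker a).IsMaximal := by
  have hℓ : ℓ.Prime := Fact.out
  have hP : (RingHom.ker a).IsPrime := RingHom.ker_isPrime a
  have h1 : (ℓ : R) ∈ RingHom.ker a := by
    rw [RingHom.mem_ker, map_natCast]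
    exact CharP.cast_eq_zero _ ℓ
  have h2 := finite_quot hn hm hq hE (RingHom.ker a) ℓ hP hℓ h1
  refine ⟨h2, ?_⟩
  exact Ideal.Quotient.maximal_of_isField _ (Finite.isField_of_domain _)

/-- Homomorphisms to the algebraic closure of `ZMod ℓ` are unique, and `n = m` if there is one. -/
theorem unique_mod (hn : 3 ≤ n) (hm : 3 ≤ m) (hq : SameQ Λ m) (hE : HasE Λ)
    [Algebra.FiniteType ℤ R] (ℓ : ℕ) [Fact ℓ.Prime] (hL : LL n m < ℓ)
    (a b : R →+* AlgebraicClosure (ZMod ℓ)) : n = m ∧ a = b := by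
  have hℓ : ℓ.Prime := Fact.out
  unfold LL at hL
  obtain ⟨ha1, ha2⟩ := ker_max hn hm hq hE a
  obtain ⟨hb1, hb2⟩ := ker_max hn hm hq hE b
  let _ : Field (R ⧸ RingHom.ker a) := Ideal.Quotient.field _
  let _ : Field (R ⧸ RingHom.ker b) := Ideal.Quotient.field _
  have ha3 : CharP (R ⧸ RingHom.ker a) ℓ := by
    apply charP_of_cast hℓ
    have h1 : (Ideal.Quotient.mk (RingHom.ker a)) (ℓ : R) = 0 := by
      rw [Ideal.Quotient.eq_zero_iff_mem, RingHom.mem_ker, map_natCast]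
      exact CharP.cast_eq_zero _ ℓ
    rwa [map_natCast] at h1
  have hb3 : CharP (R ⧸ RingHom.ker b) ℓ := by
    apply charP_of_cast hℓ
    have h1 : (Ideal.Quotient.mk (RingHom.ker b)) (ℓ : R) = 0 := by
      rw [Ideal.Quotient.eq_zero_iff_mem, RingHom.mem_ker, map_natCast]
      exact CharP.cast_eq_zero _ ℓ
    rwa [map_natCast] at h1
  obtain ⟨hnm, hcard⟩ := card_resid hn hm hq hE hℓ (by omega) (by omega) (by omega)
    (Ideal.Quotient.mk (RingHom.ker a)) Ideal.Quotient.mk_surjective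
  refine ⟨hnm, RingHom.ext fun r => ?_⟩
  obtain ⟨k, hk⟩ : ∃ k : ZMod ℓ, ZMod.castHom (dvd_refl ℓ) (R ⧸ RingHom.ker a) k =
      Ideal.Quotient.mk (RingHom.ker a) r := by
    have hinj := (ZMod.castHom (dvd_refl ℓ) (R ⧸ RingHom.ker a)).injective
    have hbij := (Nat.bijective_iff_injective_and_card
      (ZMod.castHom (dvd_refl ℓ) (R ⧸ RingHom.ker a))).2 ⟨hinj, by rw [Nat.card_zmod, hcard]⟩
    exact hbij.2 _
  obtain ⟨z, rfl⟩ := ZMod.intCast_surjective k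
  rw [map_intCast] at hk
  have h1 : Ideal.Quotient.mk (RingHom.ker a) (r - z) = 0 := by
    rw [map_sub, map_intCast, hk, sub_self]
  have h2 : Ideal.Quotient.mk (RingHom.ker b) (r - z) = 0 :=
    ker_le hn hm hq hE hℓ (by omega) (Ideal.Quotient.mk (RingHom.ker a))
      (Ideal.Quotient.mk (RingHom.ker b)) Ideal.Quotient.mk_surjective
      Ideal.Quotient.mk_surjective _ h1
  rw [Ideal.Quotient.eq_zero_iff_mem, RingHom.mem_ker, map_sub, map_intCast, sub_eq_zero] at h1 h2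
  rw [h1, h2]

/-- The structure of the ring. -/
theorem structure2 (hn : 3 ≤ n) (hm : 3 ≤ m) (hq : SameQ Λ m) (hE : HasE Λ)
    [Algebra.FiniteType ℤ R] [Infinite R] : n = m ∧ ∃ (α : R →+* ℚ) (w : ℕ),
      Finite ((RingHom.ker α) ^ w : Ideal R) := by
  classical
  obtain ⟨α, s, w, _, _, h1⟩ := structure1 (R := R)
    ⟨LL n m, fun ℓ _ hL a b => (unique_mod hn hm hq hE ℓ hL a b).2⟩
    (fun P p hP hp hpP => finite_quot hn hm hq hE P p hP hp hpP)
  refine ⟨?_, α, w, h1⟩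
  obtain ⟨s, hs⟩ := (inferInstance : Algebra.FiniteType ℤ R).out
  let γ : R →+* QQ := (algebraMap ℚ QQ).comp α
  obtain ⟨L, hL⟩ := exists_red (s.image γ)
  obtain ⟨ℓ, hℓ1, hℓ2⟩ := Nat.exists_infinite_primes (L + LL n m + 1)
  have : Fact ℓ.Prime := ⟨hℓ2⟩
  obtain ⟨h⟩ := hL ℓ (by omega)
  have hmem : ∀ x, γ x ∈ Algebra.adjoin ℤ ((s.image γ : Finset QQ) : Set QQ) := by
    intro x
    have hx : x ∈ Algebra.adjoin ℤ (s : Set R) := by rw [hs]; trivial
    induction hx using Algebra.adjoin_induction with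
    | mem x hx => exact Algebra.subset_adjoin (Finset.mem_coe.2 (Finset.mem_image_of_mem _ hx))
    | algebraMap r =>
      rw [eq_intCast, map_intCast]
      exact Subalgebra.intCast_mem _ r
    | add x y _ _ hx hy => rw [map_add]; exact add_mem hx hy
    | mul x y _ _ hx hy => rw [map_mul]; exact mul_mem hx hy
  let γ' : R →+* Algebra.adjoin ℤ ((s.image γ : Finset QQ) : Set QQ) :=
    γ.codRestrict (Algebra.adjoin ℤ ((s.image γ : Finset QQ) : Set QQ)) hmem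
  exact (unique_mod hn hm hq hE ℓ (by omega) (h.comp γ') (h.comp γ')).1

end

end Pool.Agent.U943.PR
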