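import Pool.Agent.U943.PR.Lift

/-!
# The congruence filtration
-/

set_option autoImplicit false

namespace Pool.Agent.U943.PR

open Matrix
open Pool.Agent.Helper460_CSP

section

variable {n : ℕ} {R : Type} [CommRing R]

/-- all entries in an ideal -/
def InI (I : Ideal R) (X : Matrix (Fin n) (Fin n) R) : Prop := ∀ i j, X i j ∈ I

lemma InI.mul_right {I : Ideal R} {X : Matrix (Fin n) (Fin n) R} (h : InI I X)
    (Y : Matrix (Fin n) (Fin n) R) : InI I (X * Y) := by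
  intro i j
  rw [Matrix.mul_apply]
  exact I.sum_mem fun k _ => I.mul_mem_right _ (h i k)

lemma InI.mul {I J : Ideal R} {X Y : Matrix (Fin n) (Fin n) R} (hX : InI I X) (hY : InI J Y) :
    InI (I * J) (X * Y) := by
  intro i j
  rw [Matrix.mul_apply]
  exact (I * J).sum_mem fun k _ => Ideal.mul_mem_mul (hX i k) (hY k j)

lemma InI.sub {I : Ideal R} {X Y : Matrix (Fin n) (Fin n) R} (hX : InI I X) (hY : InI I Y) :
    InI I (X - Y) := fun i j => I.sub_mem (hX i j) (hY i j)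

lemma InI.mono {I J : Ideal R} (hIJ : I ≤ J) {X : Matrix (Fin n) (Fin n) R} (hX : InI I X) :
    InI J X := fun i j => hIJ (hX i j)

variable (Λ : Subgroup (GL (Fin n) R))

/-- the congruence subgroup -/
def Kf (I : Ideal R) : Subgroup Λ :=
  ((GeneralLinearGroup.map (Ideal.Quotient.mk I)).comp Λ.subtype).ker

instance (I : Ideal R) : (Kf Λ I).Normal := by
  unfold Kf
  infer_instance

variable {Λ}

lemma mem_Kf {I : Ideal R} {g : Λ} :
    g ∈ Kf Λ I ↔ InI I ((g.1 : Matrix (Fin n) (Fin n) R) - 1) := by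
  unfold Kf
  rw [MonoidHom.mem_ker]
  constructor
  · intro h i j
    have h1 : (Ideal.Quotient.mk I) ((g.1 : Matrix (Fin n) (Fin n) R) i j) =
        (1 : Matrix (Fin n) (Fin n) (R ⧸ I)) i j :=
      congrArg (fun A : GL (Fin n) (R ⧸ I) => (A : Matrix (Fin n) (Fin n) (R ⧸ I)) i j) h
    rw [← Ideal.Quotient.eq_zero_iff_mem, Matrix.sub_apply, map_sub, h1, Matrix.one_apply,
      Matrix.one_apply]
    split_ifs <;> simp
  · intro h
    apply Units.ext
    refine Matrix.ext fun i j => ?_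
    show (Ideal.Quotient.mk I) ((g.1 : Matrix (Fin n) (Fin n) R) i j) =
      (1 : Matrix (Fin n) (Fin n) (R ⧸ I)) i j
    have h1 := h i j
    rw [← Ideal.Quotient.eq_zero_iff_mem, Matrix.sub_apply, map_sub, sub_eq_zero] at h1
    rw [h1, Matrix.one_apply, Matrix.one_apply]
    split_ifs <;> simp

lemma Kf_mono {I J : Ideal R} (h : I ≤ J) : Kf Λ I ≤ Kf Λ J := fun _ hg =>
  mem_Kf.2 ((mem_Kf.1 hg).mono h)

lemma comm_Kf {I J : Ideal R} {x y : Λ} (hx : x ∈ Kf Λ I) (hy : y ∈ Kf Λ J) :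
    x * y * x⁻¹ * y⁻¹ ∈ Kf Λ (I * J) := by
  rw [mem_Kf] at *
  set X : Matrix (Fin n) (Fin n) R := (x.1 : Matrix (Fin n) (Fin n) R) with hX
  set Y : Matrix (Fin n) (Fin n) R := (y.1 : Matrix (Fin n) (Fin n) R) with hY
  let Z : Matrix (Fin n) (Fin n) R := (((x⁻¹ * y⁻¹ : Λ).1 : GL (Fin n) R) : Matrix (Fin n) (Fin n) R)
  have e1 : (((x * y * x⁻¹ * y⁻¹ : Λ).1 : GL (Fin n) R) : Matrix (Fin n) (Fin n) R) = X * Y * Z := by
    rw [mul_assoc (x * y)]
    rfl
  have e2 : (1 : Matrix (Fin n) (Fin n) R) = Y * X * Z := by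
    have h1 : (1 : Λ) = (y * x) * (x⁻¹ * y⁻¹) := by group
    have h2 := congrArg (fun g : Λ => ((g.1 : GL (Fin n) R) : Matrix (Fin n) (Fin n) R)) h1
    exact h2
  have e3 : X * Y * Z - 1 = ((X - 1) * (Y - 1) - (Y - 1) * (X - 1)) * Z := by
    nth_rewrite 1 [e2]
    rw [← sub_mul]
    congr 1
    simp only [mul_sub, sub_mul, mul_one, one_mul]
    abel
  rw [e1, e3]
  refine InI.mul_right ?_ Z
  refine InI.sub (hx.mul hy) ?_
  rw [mul_comm I J]
  exact hy.mul hx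

lemma Kf_finite {I : Ideal R} (h : Finite I) : Finite (Kf Λ I) := by
  refine Finite.of_injective (fun g : Kf Λ I => fun i j : Fin n =>
    (⟨((g.1.1 : Matrix (Fin n) (Fin n) R) - 1) i j, mem_Kf.1 g.2 i j⟩ : I)) ?_
  intro g h hgh
  apply Subtype.ext
  apply Subtype.ext
  apply Units.ext
  refine Matrix.ext fun i j => ?_
  have h1 := congrArg Subtype.val (congrFun (congrFun hgh i) j)
  simp only [Matrix.sub_apply] at h1
  exact sub_left_injective h1

/-- The image in a simple group. -/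
lemma image_filt {S : Type*} [Group S] [IsSimpleGroup S] (hperf : commutator S = ⊤)
    (Φ : Λ →* S) (hΦ : Function.Surjective Φ) (P : Ideal R) (h : ∃ g ∈ Kf Λ P, Φ g ≠ 1) (k : ℕ) :
    (Kf Λ (P ^ (k + 1))).map Φ = ⊤ := by
  induction k with
  | zero =>
    rw [zero_add, pow_one]
    have hn : ((Kf Λ P).map Φ).Normal := Subgroup.Normal.map inferInstance Φ hΦ
    rcases hn.eq_bot_or_eq_top with h1 | h1
    · exfalso
      obtain ⟨g, hg, hg1⟩ := h
      apply hg1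
      have h2 : Φ g ∈ (Kf Λ P).map Φ := ⟨g, hg, rfl⟩
      rwa [h1, Subgroup.mem_bot] at h2
    · exact h1
  | succ k ih =>
    rw [eq_top_iff, ← hperf, commutator_def, Subgroup.commutator_le]
    intro s _ t _
    have hs : s ∈ (Kf Λ (P ^ (k + 1))).map Φ := by rw [ih]; trivial
    have ht : t ∈ (Kf Λ (P ^ (k + 1))).map Φ := by rw [ih]; trivial
    obtain ⟨x, hx, rfl⟩ := hs
    obtain ⟨y, hy, rfl⟩ := ht
    refine ⟨x * y * x⁻¹ * y⁻¹, Kf_mono ?_ (comm_Kf hx hy), ?_⟩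
    · rw [← pow_add]
      exact Ideal.pow_le_pow_right (by omega)
    · rw [commutatorElement_def, map_mul, map_mul, map_mul, map_inv, map_inv]

/-- reduction to a divisor -/
def kap (n : ℕ) {M p : ℕ} (h : p ∣ M) :
    SpecialLinearGroup (Fin n) (ZMod M) →* ProjectiveSpecialLinearGroup (Fin n) (ZMod p) :=
  (QuotientGroup.mk' _).comp (SpecialLinearGroup.map (ZMod.castHom h (ZMod p)))

lemma kap_rp {M p : ℕ} (h : p ∣ M) (z : SZ n) : kap n h (rp n M z) = pip n p z := by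
  have h1 : SpecialLinearGroup.map (ZMod.castHom h (ZMod p)) (rp n M z) = rp n p z := by
    apply Subtype.ext
    refine Matrix.ext fun i j => ?_
    show (ZMod.castHom h (ZMod p)) ((z.1 i j : ℤ) : ZMod M) = ((z.1 i j : ℤ) : ZMod p)
    rw [map_intCast]
  show (QuotientGroup.mk' _) (SpecialLinearGroup.map (ZMod.castHom h (ZMod p)) (rp n M z)) = _
  rw [h1]
  rfl

/-- **The kernel of the map to characteristic zero does not see the simple quotients.** -/
theorem kernel_trivial (hn : 3 ≤ n) (P : Ideal R) (w : ℕ) (hfin : Finite (P ^ w : Ideal R))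
    {c j : ℕ} (hj : Nat.card (Kf Λ (P ^ (w + 1))) < 2 ^ j)
    (φ : Λ →* (rp n (c ^ j)).range) (hφ : Function.Surjective φ) {p : ℕ} (hp : p.Prime)
    (hpc : p ∣ c) (hpM : p ∣ c ^ j) (g : Λ) (hg : g ∈ Kf Λ P) :
    kap n hpM (φ g).1 = 1 := by
  have hpF : Fact p.Prime := ⟨hp⟩
  by_contra hne
  let κ : (rp n (c ^ j)).range →* ProjectiveSpecialLinearGroup (Fin n) (ZMod p) :=
    (kap n hpM).comp (rp n (c ^ j)).range.subtype
  have hκ : Function.Surjective κ := by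
    intro s
    obtain ⟨z, hz⟩ := pip_surj hn p s
    exact ⟨⟨rp n (c ^ j) z, ⟨z, rfl⟩⟩, (kap_rp hpM z).trans hz⟩
  have hs := Pool.Agent.H463R3.PSLn.isSimpleGroup_PSL (F := ZMod p) (card3 hn)
  have htop := image_filt (Pool.Agent.H463R3.PSLn.PSL_commutator_eq_top (card3 hn)) (κ.comp φ)
    (hκ.comp hφ) P ⟨g, hg, hne⟩ w
  -- the corresponding normal subgroup of `SL (n, ℤ)`
  let ρ : SZ n →* (rp n (c ^ j)).range := (rp n (c ^ j)).rangeRestrict
  let N : Subgroup (SZ n) := ((Kf Λ (P ^ (w + 1))).map φ).comap ρ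
  have hN1 : ((Kf Λ (P ^ (w + 1))).map φ).Normal := Subgroup.Normal.map inferInstance φ hφ
  have hN : N.Normal := hN1.comap ρ
  have hNp : ∀ z : SZ n, ∃ x ∈ N, pip n p x = pip n p z := by
    intro z
    have h1 : pip n p z ∈ (Kf Λ (P ^ (w + 1))).map (κ.comp φ) := by rw [htop]; trivial
    obtain ⟨y, hy, hyz⟩ := h1
    obtain ⟨x, hx⟩ := (φ y).2
    refine ⟨x, ⟨y, hy, ?_⟩, ?_⟩
    · apply Subtype.ext
      exact hx.symm
    · rw [← kap_rp hpM x, hx]
      exact hyz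
  have hj0 : 0 < j := by
    rcases Nat.eq_zero_or_pos j with h | h
    · subst h
      have : Finite (Kf Λ (P ^ (w + 1))) := Kf_finite (by
        have h1 : P ^ (w + 1) ≤ P ^ w := Ideal.pow_le_pow_right (by omega)
        exact Finite.of_injective _ (Submodule.inclusion_injective h1))
      have h2 : 0 < Nat.card (Kf Λ (P ^ (w + 1))) := Nat.card_pos
      omega
    · exact h
  obtain ⟨k, rfl⟩ : ∃ k, j = k + 1 := ⟨j - 1, by omega⟩
  have hsup := sup_El_eq_top hn hp N hNp k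
  let i0 : Fin n := ⟨0, by omega⟩
  let i1 : Fin n := ⟨1, by omega⟩
  have h01 : i0 ≠ i1 := by simp [i0, i1]
  have hex : ∀ t : Fin (p ^ (k + 1)), ∃ y : Kf Λ (P ^ (w + 1)), ∃ x : SZ n,
      (φ y.1).1 = rp n (c ^ (k + 1)) x ∧ (p : ℤ) ^ (k + 1) ∣ x.1 i0 i1 - (t : ℕ) := by
    intro t
    have h1 : tv i0 i1 h01 ((t : ℕ) : ℤ) ∈ N ⊔ El (Fin n) ((p : ℤ) ^ (k + 1)) := by
      rw [hsup]; trivial
    rw [Subgroup.mem_sup_of_normal_left] at h1
    obtain ⟨x, hx, e, he, hxe⟩ := h1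
    obtain ⟨y, hy, hyx⟩ := hx
    refine ⟨⟨y, hy⟩, x, congrArg Subtype.val hyx, ?_⟩
    have h2 : x = tv i0 i1 h01 ((t : ℕ) : ℤ) * e⁻¹ := by rw [← hxe]; group
    have h3 : rp n (p ^ (k + 1)) x = rp n (p ^ (k + 1)) (tv i0 i1 h01 ((t : ℕ) : ℤ)) := by
      rw [h2, map_mul, map_inv]
      have h4 : rp n (p ^ (k + 1)) e = 1 := by
        rw [rp_one_iff]
        push_cast
        exact El_cgr he
      rw [h4, inv_one, mul_one]
    rw [rp_tv] at h3
    have h5 : ((x.1 i0 i1 : ℤ) : ZMod (p ^ (k + 1))) = (((t : ℕ) : ℤ) : ZMod (p ^ (k + 1))) := by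
      have h6 := congrArg (fun A : SpecialLinearGroup (Fin n) (ZMod (p ^ (k + 1))) => A.1 i0 i1) h3
      have h7 : ((x.1 i0 i1 : ℤ) : ZMod (p ^ (k + 1))) =
        (transvection i0 i1 ((((t : ℕ) : ℤ)) : ZMod (p ^ (k + 1)))) i0 i1 := h6
      rw [h7]
      simp [transvection, Matrix.one_apply_ne h01]
    have h8 : ((x.1 i0 i1 - (t : ℕ) : ℤ) : ZMod (p ^ (k + 1))) = 0 := by
      rw [Int.cast_sub, h5, sub_self]
    rw [ZMod.intCast_zmod_eq_zero_iff_dvd] at h8
    exact_mod_cast h8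
  choose y x hyx hx using hex
  have hfinK : Finite (Kf Λ (P ^ (w + 1))) := Kf_finite (by
    have h1 : P ^ (w + 1) ≤ P ^ w := Ideal.pow_le_pow_right (by omega)
    exact Finite.of_injective _ (Submodule.inclusion_injective h1))
  have hinj : Function.Injective y := by
    intro t t' htt
    have h1 : rp n (c ^ (k + 1)) (x t) = rp n (c ^ (k + 1)) (x t') := by
      rw [← hyx, ← hyx, htt]
    have h2 : ((((x t).1 i0 i1 : ℤ)) : ZMod (c ^ (k + 1))) = (((x t').1 i0 i1 : ℤ) : ZMod (c ^ (k + 1))) :=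
      congrArg (fun A : SpecialLinearGroup (Fin n) (ZMod (c ^ (k + 1))) => A.1 i0 i1) h1
    have h3 : (((x t).1 i0 i1 - (x t').1 i0 i1 : ℤ) : ZMod (c ^ (k + 1))) = 0 := by
      rw [Int.cast_sub, h2, sub_self]
    rw [ZMod.intCast_zmod_eq_zero_iff_dvd] at h3
    have h4 : ((p : ℤ) ^ (k + 1)) ∣ (x t).1 i0 i1 - (x t').1 i0 i1 := by
      refine dvd_trans ?_ h3
      push_cast
      exact pow_dvd_pow_of_dvd (by exact_mod_cast hpc) _
    have h5 : ((p : ℤ) ^ (k + 1)) ∣ ((t : ℕ) : ℤ) - ((t' : ℕ) : ℤ) := by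
      have h6 := dvd_sub (dvd_add h4 (hx t')) (hx t)
      have h7 : (x t).1 i0 i1 - (x t').1 i0 i1 + ((x t').1 i0 i1 - ((t' : ℕ) : ℤ)) -
        ((x t).1 i0 i1 - ((t : ℕ) : ℤ)) = ((t : ℕ) : ℤ) - ((t' : ℕ) : ℤ) := by ring
      rwa [h7] at h6
    have ht := t.2
    have ht' := t'.2
    apply Fin.ext
    have h8 : ((t : ℕ) : ZMod (p ^ (k + 1))) = ((t' : ℕ) : ZMod (p ^ (k + 1))) := by
      have h9 : ((((t : ℕ) : ℤ) - ((t' : ℕ) : ℤ) : ℤ) : ZMod (p ^ (k + 1))) = 0 := by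
        rw [ZMod.intCast_zmod_eq_zero_iff_dvd]
        exact_mod_cast h5
      rw [Int.cast_sub, sub_eq_zero] at h9
      exact_mod_cast h9
    rw [ZMod.natCast_eq_natCast_iff] at h8
    exact Nat.ModEq.eq_of_lt_of_lt h8 ht ht'
  have h1 := Nat.card_le_card_of_injective y hinj
  rw [Nat.card_fin] at h1
  have h2 : 2 ^ (k + 1) ≤ p ^ (k + 1) := Nat.pow_le_pow_left hp.two_le _
  omega

end

end Pool.Agent.U943.PR
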