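import Pool.Agent.Helper460_CSP.Bls
import Pool.Agent.H463R3.PSLn

/-!
# Finite simple quotients of `SL (m, ℤ)`

Let `m ≥ 3`. The kernel of a surjection from `SL (m, ℤ)` onto a finite nonabelian simple group is the
group `KP m p` of the matrices which are scalar modulo `p`, for a prime `p`.
-/

set_option autoImplicit false

namespace Pool.Agent.U943.PR

open Matrix
open Pool.Agent.Helper460_CSP

/-- `SL (m, ℤ)` -/
abbrev SZ (m : ℕ) := SpecialLinearGroup (Fin m) ℤ

/-- reduction modulo `p` -/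
def rp (m p : ℕ) : SZ m →* SpecialLinearGroup (Fin m) (ZMod p) :=
  SpecialLinearGroup.map (Int.castRingHom (ZMod p))

/-- the map to `PSL` -/
def pip (m p : ℕ) : SZ m →* ProjectiveSpecialLinearGroup (Fin m) (ZMod p) :=
  (QuotientGroup.mk' _).comp (rp m p)

/-- the matrices which are scalar modulo `p` -/
def KP (m p : ℕ) : Subgroup (SZ m) := (pip m p).ker

lemma card3 {m : ℕ} (hm : 3 ≤ m) : 3 ≤ Fintype.card (Fin m) := by
  rwa [Fintype.card_fin]

lemma nontriv {m : ℕ} (hm : 3 ≤ m) : Nontrivial (Fin m) :=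
  Fintype.one_lt_card_iff_nontrivial.1 (by rw [Fintype.card_fin]; omega)

lemma bls' {m : ℕ} (hm : 3 ≤ m) {M : ℤ} (hM : M ≠ 0) (A : SZ m) (h : Cgr M A) :
    A ∈ El (Fin m) M := by
  obtain ⟨k, rfl⟩ : ∃ k, m = k + 3 := ⟨m - 3, by omega⟩
  exact bls hM k A h

lemma El_one {m : ℕ} (hm : 3 ≤ m) : El (Fin m) 1 = ⊤ := by
  rw [eq_top_iff]
  intro A _
  exact bls' hm one_ne_zero A (fun i j => one_dvd _)

lemma rp_surj {m : ℕ} (hm : 3 ≤ m) (p : ℕ) [Fact p.Prime] : Function.Surjective (rp m p) := by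
  have := nontriv hm
  intro A
  rw [← MonoidHom.mem_range]
  refine Pool.Agent.H463R3.PSLn.transvection_induction (P := fun A => A ∈ (rp m p).range) ?_
    (fun A B => mul_mem) A
  intro i j h c
  obtain ⟨t, rfl⟩ := ZMod.intCast_surjective c
  refine ⟨tv i j h t, ?_⟩
  apply Subtype.ext
  ext a b
  show (Int.castRingHom (ZMod p)) (transvection i j t a b) = _
  rw [SpecialLinearGroup.transvection_coe]
  simp only [transvection, Matrix.add_apply, Matrix.one_apply, Matrix.single_apply, map_add]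
  split_ifs <;> simp

lemma pip_surj {m : ℕ} (hm : 3 ≤ m) (p : ℕ) [Fact p.Prime] : Function.Surjective (pip m p) :=
  (QuotientGroup.mk'_surjective _).comp (rp_surj hm p)

lemma rp_one_iff {m p : ℕ} {A : SZ m} : rp m p A = 1 ↔ Cgr (p : ℤ) A := by
  rw [cgr_iff, MonoidHom.mem_ker]
  rfl

lemma comm_cgr {m : ℕ} {a b : ℤ} {x y : SZ m} (hx : Cgr a x) (hy : Cgr b y) :
    Cgr (a * b) (x * y * x⁻¹ * y⁻¹) := by
  choose X hX using hx
  choose Y hY using hy
  let X' : Matrix (Fin m) (Fin m) ℤ := Matrix.of X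
  let Y' : Matrix (Fin m) (Fin m) ℤ := Matrix.of Y
  have h1 : mt x = 1 + a • X' := by
    ext i j
    rw [Matrix.add_apply, Matrix.smul_apply, smul_eq_mul]
    have := hX i j
    show _ = _ + a * X i j
    linarith
  have h2 : mt y = 1 + b • Y' := by
    ext i j
    rw [Matrix.add_apply, Matrix.smul_apply, smul_eq_mul]
    have := hY i j
    show _ = _ + b * Y i j
    linarith
  have h3 : mt x * mt y - mt y * mt x = (a * b) • (X' * Y' - Y' * X') := by
    rw [h1, h2]
    simp only [mul_add, add_mul, mul_one, one_mul, smul_mul_smul_comm, smul_sub]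
    rw [mul_comm b a]
    abel
  have h4 : mt (x * y * x⁻¹ * y⁻¹) - 1 = (a * b) • ((X' * Y' - Y' * X') * mt (x⁻¹ * y⁻¹)) := by
    have e1 : mt (x * y * x⁻¹ * y⁻¹) = mt x * mt y * mt (x⁻¹ * y⁻¹) := by
      rw [← mt_mul, ← mt_mul, ← mul_assoc]
    have e2 : (1 : Matrix (Fin m) (Fin m) ℤ) = mt y * mt x * mt (x⁻¹ * y⁻¹) := by
      rw [← mt_mul, ← mt_mul, ← mt_one]
      congr 1
      group
    rw [e1]
    nth_rewrite 1 [e2]
    rw [← sub_mul, h3, smul_mul_assoc]
  intro i j
  have h5 := congrFun (congrFun h4 i) j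
  rw [Matrix.sub_apply, Matrix.smul_apply, smul_eq_mul] at h5
  exact ⟨_, h5⟩

/-- **Finite simple quotients of `SL (m, ℤ)`.** -/
theorem key {m : ℕ} (hm : 3 ≤ m) {S : Type*} [Group S] [Finite S] [IsSimpleGroup S]
    (hna : ∃ x y : S, x * y ≠ y * x) (ψ : SZ m →* S) (hψ : Function.Surjective ψ) :
    ∃ p : ℕ, p.Prime ∧ ψ.ker = KP m p := by
  classical
  have hex : ∃ c : ℕ, 0 < c ∧ El (Fin m) (c : ℤ) ≤ ψ.ker := by
    refine ⟨Nat.card S, Nat.card_pos, El_le fun i j h => ?_⟩
    rw [MonoidHom.mem_ker, show ((Nat.card S : ℕ) : ℤ) = 1 * (Nat.card S : ℤ) by ring,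
      tv_mul_zpow, map_zpow, zpow_natCast, pow_card_eq_one']
  obtain ⟨hc0, hc⟩ := Nat.find_spec hex
  have hmin : ∀ a : ℕ, 0 < a → a < Nat.find hex → ¬ El (Fin m) (a : ℤ) ≤ ψ.ker := by
    intro a ha ha' h
    exact Nat.find_min hex ha' ⟨ha, h⟩
  set c := Nat.find hex with hcdef
  have hnt : Nontrivial S := inferInstance
  have hker : ψ.ker ≠ ⊤ := by
    intro h
    obtain ⟨s, hs⟩ := exists_ne (1 : S)
    obtain ⟨g, rfl⟩ := hψ s
    exact hs (MonoidHom.mem_ker.1 (h ▸ Subgroup.mem_top g))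
  have hc1 : c ≠ 1 := by
    intro h
    rw [h, Nat.cast_one, El_one hm, top_le_iff] at hc
    exact hker hc
  have himg : ∀ a : ℕ, 0 < a → a < c → (El (Fin m) (a : ℤ)).map ψ = ⊤ := by
    intro a ha ha'
    have hn : ((El (Fin m) (a : ℤ)).map ψ).Normal :=
      Subgroup.Normal.map inferInstance ψ hψ
    rcases hn.eq_bot_or_eq_top with h | h
    · exfalso
      apply hmin a ha ha'
      rwa [Subgroup.map_eq_bot_iff] at h
    · exact h
  have hp : c.Prime := by
    by_contra hnp
    obtain ⟨a, b, ha, hb, hab⟩ : ∃ a b : ℕ, a < c ∧ b < c ∧ a * b = c := by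
      obtain ⟨a, h1, h2, h3⟩ := Nat.exists_dvd_of_not_prime2 (by omega) hnp
      obtain ⟨b, hb⟩ := h1
      refine ⟨a, b, h3, ?_, hb.symm⟩
      rw [hb]
      have hb0 : 0 < b := by
        rcases Nat.eq_zero_or_pos b with h | h
        · subst h; omega
        · exact h
      nlinarith
    have ha0 : 0 < a := by
      rcases Nat.eq_zero_or_pos a with h | h
      · subst h; omega
      · exact h
    have hb0 : 0 < b := by
      rcases Nat.eq_zero_or_pos b with h | h
      · subst h; omega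
      · exact h
    obtain ⟨x, y, hxy⟩ := hna
    have hx : x ∈ (El (Fin m) (a : ℤ)).map ψ := by rw [himg a ha0 ha]; trivial
    have hy : y ∈ (El (Fin m) (b : ℤ)).map ψ := by rw [himg b hb0 hb]; trivial
    obtain ⟨g, hg, rfl⟩ := hx
    obtain ⟨h, hh, rfl⟩ := hy
    apply hxy
    have h1 : g * h * g⁻¹ * h⁻¹ ∈ ψ.ker := by
      apply hc
      apply bls' hm (by exact_mod_cast hc0.ne')
      have := comm_cgr (El_cgr hg) (El_cgr hh)
      rw [← hab]
      push_cast
      exact this
    rw [MonoidHom.mem_ker, map_mul, map_mul, map_mul, map_inv, map_inv, mul_inv_eq_one,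
      mul_inv_eq_iff_eq_mul] at h1
    exact h1
  have hpF : Fact c.Prime := ⟨hp⟩
  refine ⟨c, hp, ?_⟩
  have h1 : KP m c ≤ ψ.ker := by
    intro g hg
    have hg' : rp m c g ∈ Subgroup.center (SpecialLinearGroup (Fin m) (ZMod c)) := by
      rw [← QuotientGroup.eq_one_iff]
      exact hg
    have h2 : ψ g ∈ Subgroup.center S := by
      rw [Subgroup.mem_center_iff]
      intro s
      obtain ⟨y, rfl⟩ := hψ s
      have h3 : y * g * y⁻¹ * g⁻¹ ∈ ψ.ker := by
        apply hc
        apply bls' hm (by exact_mod_cast hc0.ne')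
        rw [← rp_one_iff, map_mul, map_mul, map_mul, map_inv, map_inv, mul_inv_eq_one,
          mul_inv_eq_iff_eq_mul]
        exact Subgroup.mem_center_iff.1 hg' _
      rw [MonoidHom.mem_ker, map_mul, map_mul, map_mul, map_inv, map_inv, mul_inv_eq_one,
        mul_inv_eq_iff_eq_mul] at h3
      exact h3
    have h3 : Subgroup.center S = ⊥ := by
      rcases (inferInstance : (Subgroup.center S).Normal).eq_bot_or_eq_top with h | h
      · exact h
      · exfalso
        obtain ⟨x, y, hxy⟩ := hna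
        apply hxy
        exact (Subgroup.mem_center_iff.1 (h ▸ Subgroup.mem_top y) x)
    rw [h3, Subgroup.mem_bot] at h2
    exact h2
  apply le_antisymm _ h1
  have hsimple := Pool.Agent.H463R3.PSLn.isSimpleGroup_PSL (F := ZMod c) (card3 hm)
  have hn : (ψ.ker.map (pip m c)).Normal := Subgroup.Normal.map inferInstance _ (pip_surj hm c)
  rcases hn.eq_bot_or_eq_top with h | h
  · rwa [Subgroup.map_eq_bot_iff] at h
  · exfalso
    apply hker
    rw [eq_top_iff]
    intro g _
    have h2 : pip m c g ∈ ψ.ker.map (pip m c) := by rw [h]; trivial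
    obtain ⟨k, hk, hkg⟩ := h2
    have h3 : g * k⁻¹ ∈ KP m c := by
      show g * k⁻¹ ∈ (pip m c).ker
      rw [MonoidHom.mem_ker, map_mul, map_inv, hkg, mul_inv_cancel]
    have h4 := mul_mem (h1 h3) hk
    rwa [inv_mul_cancel_right] at h4

end Pool.Agent.U943.PR
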