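import Pool.Agent.U943.PR.Fields
import Pool.Agent.U943.PR.SubQ

/-!
# Normal subgroups of `SL (m, ℤ)` which map onto `PSL (m, ℤ/p)`; maps to finite groups
-/

set_option autoImplicit false

namespace Pool.Agent.U943.PR

open Matrix
open Pool.Agent.Helper460_CSP

/-- a normal subgroup with commutative quotient is everything -/
lemma top_of_comm {m : ℕ} (hm : 3 ≤ m) (X : Subgroup (SZ m)) [X.Normal]
    (h : ∀ x y : SZ m, x * y * x⁻¹ * y⁻¹ ∈ X) : X = ⊤ := by
  have h1 : El (Fin m) 1 ≤ X := by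
    apply El_le
    intro i j hij
    obtain ⟨k, hki, hkj⟩ := exists_third hm i j
    have h2 := trans_comm (R := ℤ) hij (Ne.symm hki) hkj 1 1
    have h3 : tv i j hij 1 = (Matrix.SpecialLinearGroup.transvection (Ne.symm hki) 1 : SZ m) *
      Matrix.SpecialLinearGroup.transvection hkj 1 *
      (Matrix.SpecialLinearGroup.transvection (Ne.symm hki) 1)⁻¹ *
      (Matrix.SpecialLinearGroup.transvection hkj 1)⁻¹ := by
      rw [h2, mul_one]
      rfl
    rw [h3]
    exact h _ _
  rw [El_one hm] at h1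
  exact top_le_iff.1 h1

lemma comm_mod {G : Type*} [Group G] (X : Subgroup G) [X.Normal] {x y a b : G}
    (hx : x * a⁻¹ ∈ X) (hy : y * b⁻¹ ∈ X) (h : a * b * a⁻¹ * b⁻¹ ∈ X) :
    x * y * x⁻¹ * y⁻¹ ∈ X := by
  have e : ∀ z, z ∈ X ↔ QuotientGroup.mk' X z = 1 := fun z => (QuotientGroup.eq_one_iff z).symm
  rw [e] at *
  simp only [map_mul, map_inv] at *
  have hx' : QuotientGroup.mk' X x = QuotientGroup.mk' X a := mul_inv_eq_one.1 hx
  have hy' : QuotientGroup.mk' X y = QuotientGroup.mk' X b := mul_inv_eq_one.1 hy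
  rw [hx', hy']
  exact h

lemma pow_ne_zero_int {p : ℕ} (hp : p.Prime) (k : ℕ) : ((p : ℤ) ^ k) ≠ 0 :=
  pow_ne_zero _ (by exact_mod_cast hp.ne_zero)

lemma Cgr_dvd {m : ℕ} {M N : ℤ} (h : M ∣ N) {A : SZ m} (hA : Cgr N A) : Cgr M A :=
  fun i j => h.trans (hA i j)

/-- **Lifting.** -/
theorem sup_El_eq_top {m : ℕ} (hm : 3 ≤ m) {p : ℕ} (hp : p.Prime) (N : Subgroup (SZ m))
    [hN : N.Normal] (h : ∀ z : SZ m, ∃ x ∈ N, pip m p x = pip m p z) (k : ℕ) :
    N ⊔ El (Fin m) ((p : ℤ) ^ (k + 1)) = ⊤ := by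
  induction k with
  | zero =>
    rw [zero_add, pow_one]
    apply top_of_comm hm
    intro x y
    obtain ⟨a, ha, hax⟩ := h x
    obtain ⟨b, hb, hby⟩ := h y
    have hka : a⁻¹ * x ∈ KP m p := by
      show a⁻¹ * x ∈ (pip m p).ker
      rw [MonoidHom.mem_ker, map_mul, map_inv, hax, inv_mul_cancel]
    have hkb : b⁻¹ * y ∈ KP m p := by
      show b⁻¹ * y ∈ (pip m p).ker
      rw [MonoidHom.mem_ker, map_mul, map_inv, hby, inv_mul_cancel]
    refine comm_mod (N ⊔ El (Fin m) (p : ℤ)) (a := a⁻¹ * x) (b := b⁻¹ * y) ?_ ?_ ?_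
    · have : x * (a⁻¹ * x)⁻¹ = a := by
        have h1 : x * (a⁻¹ * x)⁻¹ = x * x⁻¹ * a := by group
        rw [h1, mul_inv_cancel, one_mul]
      rw [this]
      exact Subgroup.mem_sup_left ha
    · have : y * (b⁻¹ * y)⁻¹ = b := by
        have h1 : y * (b⁻¹ * y)⁻¹ = y * y⁻¹ * b := by group
        rw [h1, mul_inv_cancel, one_mul]
      rw [this]
      exact Subgroup.mem_sup_left hb
    · apply Subgroup.mem_sup_right
      apply bls' hm (by exact_mod_cast hp.ne_zero)
      have h2 : rp m p (b⁻¹ * y) ∈ Subgroup.center (SpecialLinearGroup (Fin m) (ZMod p)) := by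
        rw [← QuotientGroup.eq_one_iff]
        exact hkb
      rw [← rp_one_iff]
      simp only [map_mul, map_inv] at h2 ⊢
      have h3 := Subgroup.mem_center_iff.1 h2 ((rp m p a)⁻¹ * rp m p x)
      rw [h3]
      group
  | succ k ih =>
    apply top_of_comm hm
    intro x y
    have hx : x ∈ N ⊔ El (Fin m) ((p : ℤ) ^ (k + 1)) := by rw [ih]; trivial
    have hy : y ∈ N ⊔ El (Fin m) ((p : ℤ) ^ (k + 1)) := by rw [ih]; trivial
    rw [Subgroup.mem_sup_of_normal_left] at hx hy
    obtain ⟨a, ha, c, hc, rfl⟩ := hx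
    obtain ⟨b, hb, d, hd, rfl⟩ := hy
    refine comm_mod (N ⊔ El (Fin m) ((p : ℤ) ^ (k + 1 + 1))) (a := c) (b := d) ?_ ?_ ?_
    · rw [mul_inv_cancel_right]
      exact Subgroup.mem_sup_left ha
    · rw [mul_inv_cancel_right]
      exact Subgroup.mem_sup_left hb
    · apply Subgroup.mem_sup_right
      apply bls' hm (pow_ne_zero_int hp _)
      refine Cgr_dvd ?_ (comm_cgr (El_cgr hc) (El_cgr hd))
      rw [← pow_add]
      exact pow_dvd_pow _ (by omega)

lemma rp_tv {n p : ℕ} {i j : Fin n} (h : i ≠ j) (t : ℤ) :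
    rp n p (tv i j h t) = Matrix.SpecialLinearGroup.transvection h (t : ZMod p) := by
  apply Subtype.ext
  refine Matrix.ext fun a b => ?_
  show (Int.castRingHom (ZMod p)) ((transvection i j t) a b) = (transvection i j (t : ZMod p)) a b
  simp only [transvection, Matrix.add_apply, Matrix.one_apply, Matrix.single_apply, map_add]
  split_ifs <;> simp

section density

variable {n : ℕ} (D : Subring ℚ)

/-- the inclusion of `SL (n, ℤ)` -/
def jD (n : ℕ) : SZ n →* SpecialLinearGroup (Fin n) D :=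
  SpecialLinearGroup.map (Int.castRingHom D)

lemma jD_tv {i j : Fin n} (h : i ≠ j) (t : ℤ) :
    jD D n (tv i j h t) = Matrix.SpecialLinearGroup.transvection h (t : D) := by
  apply Subtype.ext
  refine Matrix.ext fun a b => ?_
  show (Int.castRingHom D) ((transvection i j t) a b) = (transvection i j (t : D)) a b
  simp only [transvection, Matrix.add_apply, Matrix.one_apply, Matrix.single_apply, map_add]
  split_ifs <;> simp

/-- The transvections as a homomorphism. -/
def trh {i j : Fin n} (h : i ≠ j) : Multiplicative D →* SpecialLinearGroup (Fin n) D where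
  toFun := fun t => Matrix.SpecialLinearGroup.transvection h (Multiplicative.toAdd t)
  map_one' := Matrix.SpecialLinearGroup.transvection_coeff_zero h
  map_mul' := fun s t => Matrix.SpecialLinearGroup.transvection_add h _ _

lemma exists_period (b N : ℕ) (hN : 0 < N) : ∃ k d : ℕ, 1 ≤ d ∧ N ∣ b ^ k * (b ^ d - 1) := by
  have : NeZero N := ⟨hN.ne'⟩
  obtain ⟨k, l, hkl, h⟩ := Finite.exists_ne_map_eq_of_infinite (fun k : ℕ => ((b : ZMod N)) ^ k)
  wlog hlt : k < l generalizing k l
  · exact this l k hkl.symm h.symm (by omega)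
  refine ⟨k, l - k, by omega, ?_⟩
  rw [Nat.mul_sub, mul_one, ← pow_add, Nat.add_sub_cancel' hlt.le]
  have h1 : ((b ^ k : ℕ) : ZMod N) = ((b ^ l : ℕ) : ZMod N) := by push_cast; exact h
  rw [ZMod.natCast_eq_natCast_iff] at h1
  rcases Nat.eq_zero_or_pos b with hb | hb
  · subst hb
    rw [zero_pow (by omega : l ≠ 0)]
    simp only [zero_tsub, dvd_zero]
  · exact (Nat.modEq_iff_dvd' (Nat.pow_le_pow_right hb hlt.le)).1 h1

/-- **Density of the integral points for maps to finite groups.** -/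
theorem density {Q : Type*} [Group Q] [Finite Q] (Θ : SpecialLinearGroup (Fin n) D →* Q)
    (A : SpecialLinearGroup (Fin n) D) : ∃ z : SZ n, Θ (jD D n z) = Θ A := by
  have h1 : Elm (Fin n) D ≤ (Θ.comp (jD D n)).range.comap Θ := by
    unfold Elm
    rw [Subgroup.closure_le]
    rintro _ ⟨i, j, h, x, rfl⟩
    let g : Multiplicative D →* Q := Θ.comp (trh D h)
    have hg : ∀ y : D, g (Multiplicative.ofAdd y) =
      Θ (Matrix.SpecialLinearGroup.transvection h y) := fun _ => rfl
    obtain ⟨k, d, hd, hdvd⟩ := exists_period x.1.den (Nat.card Q) Nat.card_pos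
    obtain ⟨s, hs⟩ := hdvd
    let r : D := ⟨((x.1.den : ℚ))⁻¹, inv_den_mem D x⟩
    have hden : (x.1.den : ℚ) ≠ 0 := by exact_mod_cast x.1.den_ne_zero
    have hr : r * (x.1.den : D) = 1 := by
      apply Subtype.ext
      exact inv_mul_cancel₀ hden
    have hx : (x.1.den : D) * x = (x.1.num : D) := by
      apply Subtype.ext
      show ((x.1.den : D) : ℚ) * x.1 = ((x.1.num : D) : ℚ)
      have h4 : x.1 * x.1.den = x.1.num := Rat.mul_den_eq_num x.1
      push_cast
      rw [← h4]
      ring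
    have hpos : 1 ≤ x.1.den ^ d := Nat.one_le_pow _ _ x.1.den_pos
    -- the values at `x` and at `den ^ d * x`
    have h2 : (((x.1.den : D) ^ d - 1) * x) = (Nat.card Q : D) * (s * x * r ^ k) := by
      have h3 : ((x.1.den : D) ^ k * ((x.1.den : D) ^ d - 1)) = (Nat.card Q : D) * s := by
        have := congrArg (Nat.cast : ℕ → D) hs
        push_cast [Nat.cast_sub hpos] at this
        exact this
      have h4 : r ^ k * (x.1.den : D) ^ k = 1 := by rw [← mul_pow, hr, one_pow]
      calc (((x.1.den : D) ^ d - 1) * x) =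
          (r ^ k * (x.1.den : D) ^ k) * (((x.1.den : D) ^ d - 1) * x) := by rw [h4, one_mul]
        _ = ((x.1.den : D) ^ k * ((x.1.den : D) ^ d - 1)) * (x * r ^ k) := by ring
        _ = _ := by rw [h3]; ring
    have h3 : g (Multiplicative.ofAdd ((((x.1.den : D) ^ d - 1) * x))) = 1 := by
      rw [h2, ← nsmul_eq_mul, ofAdd_nsmul, map_pow, pow_card_eq_one']
    have h4 : g (Multiplicative.ofAdd ((x.1.den : D) ^ d * x)) = g (Multiplicative.ofAdd x) := by
      have h5 : (x.1.den : D) ^ d * x = x + ((x.1.den : D) ^ d - 1) * x := by ring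
      rw [h5, ofAdd_add, map_mul, h3, mul_one]
    obtain ⟨e, rfl⟩ : ∃ e, d = e + 1 := ⟨d - 1, by omega⟩
    have h5 : (x.1.den : D) ^ (e + 1) * x = (((x.1.den : ℤ) ^ e * x.1.num : ℤ) : D) := by
      rw [pow_succ, mul_assoc, hx]
      push_cast
      rfl
    refine ⟨tv i j h ((x.1.den : ℤ) ^ e * x.1.num), ?_⟩
    show Θ (jD D n (tv i j h ((x.1.den : ℤ) ^ e * x.1.num))) = Θ _
    rw [jD_tv, ← h5]
    exact h4
  rw [Elm_subring] at h1
  exact h1 (Subgroup.mem_top A)

/-- A prime number `p` such that the kernel on `SL (n, ℤ)` is `KP n p` is not invertible. -/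
lemma not_invertible (hn : 3 ≤ n) {S : Type*} [Group S]
    (Θ : SpecialLinearGroup (Fin n) D →* S) {p : ℕ} (hp : p.Prime)
    (hker : (Θ.comp (jD D n)).ker = KP n p) (y : D) (hy : (p : D) * y = 1) : False := by
  have hpF : Fact p.Prime := ⟨hp⟩
  have h1 : El (Fin n) 1 ≤ (Θ.comp (jD D n)).ker := by
    apply El_le
    intro i j h
    obtain ⟨k, hki, hkj⟩ := exists_third hn i j
    have h2 := trans_comm (R := D) h (Ne.symm hki) hkj p y
    rw [hy] at h2
    have h3 : tv i k (Ne.symm hki) (p : ℤ) ∈ (Θ.comp (jD D n)).ker := by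
      rw [hker]
      show tv i k (Ne.symm hki) (p : ℤ) ∈ (pip n p).ker
      rw [MonoidHom.mem_ker]
      have h4 : rp n p (tv i k (Ne.symm hki) (p : ℤ)) = 1 := by
        rw [rp_one_iff]
        exact El_cgr (tv_El i k _ (dvd_refl _))
      show (QuotientGroup.mk' _) (rp n p (tv i k (Ne.symm hki) (p : ℤ))) = 1
      rw [h4, map_one]
    rw [MonoidHom.mem_ker, MonoidHom.comp_apply, jD_tv] at h3
    rw [MonoidHom.mem_ker, MonoidHom.comp_apply, jD_tv]
    have h5 : (((p : ℤ) : D)) = (p : D) := by push_cast; rfl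
    rw [h5] at h3
    rw [Int.cast_one, ← h2, map_mul, map_mul, map_mul, map_inv, map_inv, h3, inv_one, one_mul,
      mul_one, mul_inv_cancel]
  rw [El_one hn, top_le_iff, hker] at h1
  let i0 : Fin n := ⟨0, by omega⟩
  let i1 : Fin n := ⟨1, by omega⟩
  have h01 : i0 ≠ i1 := by simp [i0, i1]
  have h2 : tv i0 i1 h01 1 ∈ KP n p := by rw [h1]; trivial
  have h3 : (QuotientGroup.mk' (Subgroup.center (SpecialLinearGroup (Fin n) (ZMod p))))
    (rp n p (tv i0 i1 h01 1)) = 1 := h2
  rw [rp_tv, psl_trans_inj, Int.cast_one] at h3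
  exact one_ne_zero h3

end density

end Pool.Agent.U943.PR
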