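import Pool.Agent.U943.PR.Char
import Pool.Agent.H373SQ.CardPSL

/-!
# Comparison of the orders
-/

set_option autoImplicit false

namespace Pool.Agent.U943.PR

open Matrix
open Pool.Agent.H373SQ

lemma sum_Icc2 (k : ℕ) : 2 * ∑ i ∈ Finset.Icc 2 (k + 1), i = k * k + 3 * k := by
  induction k with
  | zero => simp
  | succ k ih =>
    rw [Finset.sum_Icc_succ_top (by omega), mul_add, ih]
    ring

lemma prod_le (n q : ℕ) : ∏ i ∈ Finset.Icc 2 n, (q ^ i - 1) ≤ q ^ (∑ i ∈ Finset.Icc 2 n, i) := by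
  rw [← Finset.prod_pow_eq_pow_sum]
  exact Finset.prod_le_prod' fun i _ => Nat.sub_le _ _

lemma le_prod (n q : ℕ) (hq : 2 ≤ q) : q ^ (∑ i ∈ Finset.Icc 2 n, i) ≤
    2 ^ n * ∏ i ∈ Finset.Icc 2 n, (q ^ i - 1) := by
  have h1 : q ^ (∑ i ∈ Finset.Icc 2 n, i) ≤
      ∏ i ∈ Finset.Icc 2 n, (2 * (q ^ i - 1)) := by
    rw [← Finset.prod_pow_eq_pow_sum]
    refine Finset.prod_le_prod' fun i hi => ?_
    have h2 := (Finset.mem_Icc.1 hi).1
    have h3 : 2 ≤ q ^ i := le_trans hq (Nat.le_self_pow (by omega) q)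
    omega
  refine h1.trans ?_
  rw [Finset.prod_mul_distrib, Finset.prod_const]
  refine Nat.mul_le_mul_right _ (Nat.pow_le_pow_right (by norm_num) ?_)
  rw [Nat.card_Icc]
  omega

lemma not_dvd_prod {p f n : ℕ} (hp : p.Prime) (hf : 1 ≤ f) :
    ¬ p ∣ ∏ i ∈ Finset.Icc 2 n, ((p ^ f) ^ i - 1) := by
  intro h
  obtain ⟨i, hi, h1⟩ := (Prime.dvd_finset_prod_iff hp.prime _).1 h
  have h2 := (Finset.mem_Icc.1 hi).1
  have h3 : p ∣ (p ^ f) ^ i := by
    rw [← pow_mul]
    exact dvd_pow_self p (Nat.mul_ne_zero (by omega) (by omega))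
  have h4 : 1 ≤ (p ^ f) ^ i := Nat.one_le_pow _ _ (Nat.pow_pos hp.pos)
  have h5 : p ∣ (p ^ f) ^ i - ((p ^ f) ^ i - 1) := Nat.dvd_sub h3 h1
  rw [Nat.sub_sub_self h4] at h5
  exact hp.one_lt.ne' (Nat.dvd_one.1 h5)

lemma val_eq {p a b X Y : ℕ} (hp : p.Prime) (hX : ¬ p ∣ X) (hY : ¬ p ∣ Y)
    (h : p ^ a * X = p ^ b * Y) : a = b := by
  rcases lt_trichotomy a b with h1 | h1 | h1
  · exfalso
    apply hX
    obtain ⟨c, rfl⟩ : ∃ c, b = a + (c + 1) := ⟨b - a - 1, by omega⟩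
    rw [pow_add, mul_assoc] at h
    have h2 := Nat.eq_of_mul_eq_mul_left (Nat.pow_pos hp.pos) h
    rw [h2, pow_succ]
    exact Dvd.dvd.mul_right (Dvd.intro_left _ rfl) _
  · exact h1
  · exfalso
    apply hY
    obtain ⟨c, rfl⟩ : ∃ c, a = b + (c + 1) := ⟨a - b - 1, by omega⟩
    rw [pow_add, mul_assoc] at h
    have h2 := Nat.eq_of_mul_eq_mul_left (Nat.pow_pos hp.pos) h
    rw [← h2, pow_succ]
    exact Dvd.dvd.mul_right (Dvd.intro_left _ rfl) _

lemma arith {n m f p : ℕ} (hn : 3 ≤ n) (hm : 3 ≤ m) (hp : p.Prime) (hf : 1 ≤ f)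
    (hpn : 2 ^ n * n < p) (hpm : 2 ^ m * m < p) {g h : ℕ} (hg0 : 0 < g) (hg : g ≤ n)
    (hh0 : 0 < h) (hh : h ≤ m)
    (heq : numPSL n (p ^ f) * h = numPSL m p * g) : n = m ∧ f = 1 := by
  have h2n : n ≤ 2 ^ n * n := Nat.le_mul_of_pos_left _ (by positivity)
  have h2m : m ≤ 2 ^ m * m := Nat.le_mul_of_pos_left _ (by positivity)
  have e1 : f * (n * (n - 1) / 2) = m * (m - 1) / 2 := by
    refine val_eq (p := p) (X := (∏ i ∈ Finset.Icc 2 n, ((p ^ f) ^ i - 1)) * h)
      (Y := (∏ i ∈ Finset.Icc 2 m, (p ^ i - 1)) * g) hp ?_ ?_ ?_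
    · intro hd
      rcases (Nat.Prime.dvd_mul hp).1 hd with h1 | h1
      · exact not_dvd_prod hp hf h1
      · exact absurd (Nat.le_of_dvd hh0 h1) (by omega)
    · intro hd
      rcases (Nat.Prime.dvd_mul hp).1 hd with h1 | h1
      · have := not_dvd_prod (n := m) hp (le_refl 1)
        rw [pow_one] at this
        exact this h1
      · exact absurd (Nat.le_of_dvd hg0 h1) (by omega)
    · unfold numPSL at heq
      rw [pow_mul, ← mul_assoc, ← mul_assoc]
      exact heq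
  set A := ∑ i ∈ Finset.Icc 2 n, i with hA
  set B := ∑ i ∈ Finset.Icc 2 m, i with hB
  set a := n * (n - 1) / 2 with ha
  set b := m * (m - 1) / 2 with hb
  have hp1 : 1 < p := hp.one_lt
  have hpf : 2 ≤ p ^ f := le_trans hp1 (Nat.le_self_pow (by omega) p)
  have e2 : f * (a + A) = b + B := by
    apply le_antisymm
    · by_contra hcon
      push Not at hcon
      -- `p ^ (f (a + A)) ≤ 2 ^ n n p ^ (b + B)`
      have h1 : p ^ (f * (a + A)) ≤ (2 ^ n * n) * p ^ (b + B) := by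
        calc p ^ (f * (a + A)) = (p ^ f) ^ a * (p ^ f) ^ A := by rw [pow_mul, pow_add]
          _ ≤ (p ^ f) ^ a * (2 ^ n * ∏ i ∈ Finset.Icc 2 n, ((p ^ f) ^ i - 1)) :=
            Nat.mul_le_mul_left _ (le_prod n _ hpf)
          _ = 2 ^ n * numPSL n (p ^ f) := by unfold numPSL; ring
          _ ≤ 2 ^ n * (numPSL n (p ^ f) * h) :=
            Nat.mul_le_mul_left _ (Nat.le_mul_of_pos_right _ hh0)
          _ = 2 ^ n * (numPSL m p * g) := by rw [heq]
          _ ≤ 2 ^ n * ((p ^ b * p ^ B) * n) := by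
            refine Nat.mul_le_mul_left _ (Nat.mul_le_mul ?_ hg)
            unfold numPSL
            exact Nat.mul_le_mul_left _ (prod_le m p)
          _ = (2 ^ n * n) * p ^ (b + B) := by rw [pow_add]; ring
      have h2 : p ^ (b + B + 1) ≤ p ^ (f * (a + A)) := Nat.pow_le_pow_right hp.pos (by omega)
      rw [pow_succ, mul_comm] at h2
      have h3 := h2.trans h1
      have h4 := Nat.le_of_mul_le_mul_right h3 (Nat.pow_pos hp.pos)
      omega
    · by_contra hcon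
      push Not at hcon
      have h1 : p ^ (b + B) ≤ (2 ^ m * m) * p ^ (f * (a + A)) := by
        calc p ^ (b + B) = p ^ b * p ^ B := by rw [pow_add]
          _ ≤ p ^ b * (2 ^ m * ∏ i ∈ Finset.Icc 2 m, (p ^ i - 1)) :=
            Nat.mul_le_mul_left _ (le_prod m _ hp1)
          _ = 2 ^ m * numPSL m p := by unfold numPSL; ring
          _ ≤ 2 ^ m * (numPSL m p * g) :=
            Nat.mul_le_mul_left _ (Nat.le_mul_of_pos_right _ hg0)
          _ = 2 ^ m * (numPSL n (p ^ f) * h) := by rw [heq]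
          _ ≤ 2 ^ m * (((p ^ f) ^ a * (p ^ f) ^ A) * m) := by
            refine Nat.mul_le_mul_left _ (Nat.mul_le_mul ?_ hh)
            unfold numPSL
            exact Nat.mul_le_mul_left _ (prod_le n _)
          _ = (2 ^ m * m) * p ^ (f * (a + A)) := by rw [pow_mul, pow_add]; ring
      have h2 : p ^ (f * (a + A) + 1) ≤ p ^ (b + B) := Nat.pow_le_pow_right hp.pos (by omega)
      rw [pow_succ, mul_comm] at h2
      have h3 := h2.trans h1
      have h4 := Nat.le_of_mul_le_mul_right h3 (Nat.pow_pos hp.pos)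
      omega
  obtain ⟨k, rfl⟩ : ∃ k, n = k + 1 := ⟨n - 1, by omega⟩
  obtain ⟨l, rfl⟩ : ∃ l, m = l + 1 := ⟨m - 1, by omega⟩
  have hA2 := sum_Icc2 k
  have hB2 := sum_Icc2 l
  rw [← hA] at hA2
  rw [← hB] at hB2
  have ha2 : 2 * a = (k + 1) * k := by
    rw [ha, Nat.add_sub_cancel]
    exact Nat.mul_div_cancel' (by rw [mul_comm]; exact (Nat.even_mul_succ_self k).two_dvd)
  have hb2 : 2 * b = (l + 1) * l := by
    rw [hb, Nat.add_sub_cancel]
    exact Nat.mul_div_cancel' (by rw [mul_comm]; exact (Nat.even_mul_succ_self l).two_dvd)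
  have e3 : f * ((k + 1) * k) = (l + 1) * l := by
    rw [← ha2, ← hb2, ← e1]; ring
  have e4 : f * ((k + 1) * k + (k * k + 3 * k)) = (l + 1) * l + (l * l + 3 * l) := by
    rw [← ha2, ← hb2, ← hA2, ← hB2, ← mul_add, ← mul_add, ← e2]; ring
  have e5 : f * k = l := by nlinarith
  have e6 : l * k = l * l := by
    have : f * k * (k + 1) = l * (l + 1) := by linarith [e3]
    rw [e5] at this
    nlinarith
  have hl : 0 < l := by omega
  have e7 : k = l := Nat.eq_of_mul_eq_mul_left hl e6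
  subst e7
  refine ⟨rfl, ?_⟩
  have : f * k = 1 * k := by rw [e5, one_mul]
  exact Nat.eq_of_mul_eq_mul_right hl this

lemma card_SL_PSL (n : ℕ) (hn : 1 ≤ n) (F : Type) [Field F] [Finite F] :
    numPSL n (Nat.card F) = Nat.card (ProjectiveSpecialLinearGroup (Fin n) F) *
      Nat.gcd n (Nat.card F - 1) := by
  rw [← card_SL n hn F, ← card_center n hn F]
  exact Subgroup.card_eq_card_quotient_mul_card_subgroup _

/-- **Orders.** -/
theorem orders {n m : ℕ} (hn : 3 ≤ n) (hm : 3 ≤ m) {F : Type} [Field F] [Finite F] {p : ℕ}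
    (hp : p.Prime) [CharP F p] (hpn : 2 ^ n * n < p) (hpm : 2 ^ m * m < p)
    (π : SZ m →* ProjectiveSpecialLinearGroup (Fin n) F) (hπ : Function.Surjective π)
    (hker : π.ker = KP m p) : n = m ∧ Nat.card F = p := by
  have hpF : Fact p.Prime := ⟨hp⟩
  have := Fintype.ofFinite F
  obtain ⟨f, hf1, hf2⟩ := FiniteField.card F p
  rw [← Nat.card_eq_fintype_card] at hf2
  have h1 : Nat.card (ProjectiveSpecialLinearGroup (Fin n) F) =
      Nat.card (ProjectiveSpecialLinearGroup (Fin m) (ZMod p)) := by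
    rw [← Nat.card_congr (QuotientGroup.quotientKerEquivOfSurjective π hπ).toEquiv, hker]
    exact Nat.card_congr (QuotientGroup.quotientKerEquivOfSurjective _ (pip_surj hm p)).toEquiv
  have h2 := card_SL_PSL n (by omega) F
  have h3 := card_SL_PSL m (by omega) (ZMod p)
  rw [← h1, Nat.card_zmod] at h3
  have hgn : Nat.gcd n (Nat.card F - 1) ≤ n := Nat.gcd_le_left _ (by omega)
  have hgm : Nat.gcd m (p - 1) ≤ m := Nat.gcd_le_left _ (by omega)
  have hgn0 : 0 < Nat.gcd n (Nat.card F - 1) := Nat.gcd_pos_of_pos_left _ (by omega)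
  have hgm0 : 0 < Nat.gcd m (p - 1) := Nat.gcd_pos_of_pos_left _ (by omega)
  have h4 : numPSL n (p ^ (f : ℕ)) * Nat.gcd m (p - 1) = numPSL m p * Nat.gcd n (Nat.card F - 1) := by
    rw [← hf2, h2, h3]; ring
  obtain ⟨h5, h6⟩ := arith hn hm hp f.pos hpn hpm hgn0 hgn hgm0 hgm h4
  exact ⟨h5, by rw [hf2, h6, pow_one]⟩

end Pool.Agent.U943.PR
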